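import Pool.Agent.Work.MP_0f91f8_co.Nil.Stmts

/-!
Block [0f91f8 NQ], item CHI: linearization of a quadratic map on the elements whose form is a
bounded linear form.
-/

open Filter Topology

namespace Pool.Agent.Work.MP_0f91f8_co.Nil

open Quad

namespace I_CHI

lemma lin_add_left {d : ℕ} (w w' y : Fin d → ℝ) : lin (w + w') y = lin w y + lin w' y := by
  simp only [lin, Pi.add_apply, add_mul, Finset.sum_add_distrib]

lemma lin_add_right {d : ℕ} (w y y' : Fin d → ℝ) : lin w (y + y') = lin w y + lin w y' := by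
  simp only [lin, Pi.add_apply, mul_add, Finset.sum_add_distrib]

lemma lin_neg_left {d : ℕ} (w y : Fin d → ℝ) : lin (-w) y = -lin w y := by
  simp only [lin, Pi.neg_apply, neg_mul, Finset.sum_neg_distrib]

lemma lin_neg_right {d : ℕ} (w y : Fin d → ℝ) : lin w (-y) = -lin w y := by
  simp only [lin, Pi.neg_apply, mul_neg, Finset.sum_neg_distrib]

lemma lin_zero_left {d : ℕ} (y : Fin d → ℝ) : lin 0 y = 0 := by
  simp [lin]

lemma lin_zero_right {d : ℕ} (w : Fin d → ℝ) : lin w 0 = 0 := by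
  simp [lin]

lemma continuous_lin {d : ℕ} (w : Fin d → ℝ) : Continuous (lin w) := by
  unfold lin
  fun_prop

lemma abs_lin_le {d : ℕ} (w y : Fin d → ℝ) (C δ : ℝ) (hC : 0 ≤ C) (hw : ∀ j, |w j| ≤ C)
    (hy : ‖y‖ ≤ δ) : |lin w y| ≤ d * (C * δ) := by
  unfold lin
  refine (Finset.abs_sum_le_sum_abs _ _).trans ?_
  have h1 : ∀ j ∈ Finset.univ, |w j * y j| ≤ C * δ := by
    intro j _
    rw [abs_mul]
    have h2 : |y j| ≤ δ := (norm_le_pi_norm y j).trans hy
    exact mul_le_mul (hw j) h2 (abs_nonneg _) hC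
  refine (Finset.sum_le_sum h1).trans ?_
  rw [Finset.sum_const, Finset.card_univ, Fintype.card_fin, nsmul_eq_mul]

/-- two reals with the same class and small difference are equal -/
lemma eq_of_coe {a b : ℝ} (h : ((a : ℝ) : T) = ((b : ℝ) : T)) (hab : |a - b| < 1) : a = b := by
  have h1 : ((a - b : ℝ) : T) = 0 := by
    rw [AddCircle.coe_sub, h, sub_self]
  obtain ⟨n, hn⟩ := AddCircle.coe_eq_zero_iff (1 : ℝ) |>.1 h1
  rw [zsmul_eq_mul, mul_one] at hn
  rw [← hn] at hab
  have h2 : |n| < 1 := by exact_mod_cast hab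
  have h3 : n = 0 := by
    rw [abs_lt] at h2
    omega
  rw [h3, Int.cast_zero] at hn
  linarith

/-- a linear form with integer values on a dense set is zero -/
lemma eq_zero_of_int {H : Type} [AddCommGroup H] {d : ℕ} (x : H →+ (Fin d → ℝ))
    (hx : DenseRange x) (w : Fin d → ℝ) (h : ∀ g, ((lin w (x g) : ℝ) : T) = 0) : w = 0 := by
  by_contra hw
  have hpos : 0 < lin w w := by
    unfold lin
    obtain ⟨j, hj⟩ : ∃ j, w j ≠ 0 := by
      by_contra hcon
      push Not at hcon
      exact hw (funext hcon)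
    refine Finset.sum_pos' (fun i _ => mul_self_nonneg _) ⟨j, Finset.mem_univ _, ?_⟩
    exact mul_self_pos.2 hj
  have hopen : IsOpen {y : Fin d → ℝ | |lin w y - 1 / 2| < 1 / 4} :=
    isOpen_lt (by have := continuous_lin w; fun_prop) continuous_const
  have hne : {y : Fin d → ℝ | |lin w y - 1 / 2| < 1 / 4}.Nonempty := by
    refine ⟨(1 / (2 * lin w w)) • w, ?_⟩
    have h1 : lin w ((1 / (2 * lin w w)) • w) = 1 / 2 := by
      have h2 : lin w ((1 / (2 * lin w w)) • w) = (1 / (2 * lin w w)) * lin w w := by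
        simp only [lin, Pi.smul_apply, smul_eq_mul, Finset.mul_sum]
        refine Finset.sum_congr rfl fun j _ => ?_
        ring
      rw [h2]
      field_simp
    simp only [Set.mem_ofPred_eq, h1]
    norm_num
  obtain ⟨g, hg⟩ := hx.exists_mem_open hopen hne
  simp only [Set.mem_ofPred_eq] at hg
  obtain ⟨n, hn⟩ := AddCircle.coe_eq_zero_iff (1 : ℝ) |>.1 (h g)
  rw [zsmul_eq_mul, mul_one] at hn
  rw [← hn, abs_lt] at hg
  have h3 : (0 : ℝ) < n := by linarith [hg.1]
  have h4 : (n : ℝ) < 1 := by linarith [hg.2]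
  have h5 : 0 < n := by exact_mod_cast h3
  have h6 : n < 1 := by exact_mod_cast h4
  omega

end I_CHI

open I_CHI in
theorem CHI_pf : CHI := by
  intro H _ d x hx φ hφ C hC
  set B : H →+ H →+ T := form φ hφ with hB
  have hsymm : ∀ g h, B g h = B h g := by
    intro g h
    rw [hB, form_apply, form_apply, add_comm g h]
    abel
  set δ : ℝ := 1 / (4 * ((d + 1) * C)) with hδ
  have hd : (0 : ℝ) < (d : ℝ) + 1 := by positivity
  have hδ0 : 0 < δ := by positivity
  have hdC : (d : ℝ) * (C * δ) < 1 / 2 := by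
    have h1 : ((d : ℝ) + 1) * (C * δ) = 1 / 4 := by
      rw [hδ]
      field_simp
    have h2 : 0 < C * δ := mul_pos hC hδ0
    nlinarith
  set S : Set (H × (Fin d → ℝ)) := {p | (∀ g, B p.1 g = ((lin p.2 (x g) : ℝ) : T)) ∧
    ‖x p.1‖ ≤ δ ∧ ∀ j, |p.2 j| ≤ C} with hS
  set K : AddSubgroup (H × (Fin d → ℝ)) := AddSubgroup.closure S with hK
  -- the form of the elements of `K`
  have F1 : ∀ p ∈ K, ∀ g, B p.1 g = ((lin p.2 (x g) : ℝ) : T) := by
    intro p hp
    induction hp using AddSubgroup.closure_induction with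
    | mem p hp => exact hp.1
    | zero =>
      intro g
      simp only [Prod.fst_zero, Prod.snd_zero, map_zero, AddMonoidHom.zero_apply, lin_zero_left,
        AddCircle.coe_zero]
    | add p q _ _ h1 h2 =>
      intro g
      simp only [Prod.fst_add, Prod.snd_add, map_add, AddMonoidHom.add_apply, lin_add_left,
        AddCircle.coe_add, h1 g, h2 g]
    | neg p _ h1 =>
      intro g
      simp only [Prod.fst_neg, Prod.snd_neg, map_neg, AddMonoidHom.neg_apply, lin_neg_left,
        AddCircle.coe_neg, h1 g]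
  -- symmetry over the reals
  have F2S : ∀ p ∈ S, ∀ q ∈ S, lin p.2 (x q.1) = lin q.2 (x p.1) := by
    intro p hp q hq
    apply eq_of_coe
    · rw [← hp.1 q.1, ← hq.1 p.1]
      exact hsymm _ _
    · have h1 := abs_lin_le p.2 (x q.1) C δ hC.le hp.2.2 hq.2.1
      have h2 := abs_lin_le q.2 (x p.1) C δ hC.le hq.2.2 hp.2.1
      have h4 : |lin p.2 (x q.1) - lin q.2 (x p.1)| ≤ |lin p.2 (x q.1)| + |lin q.2 (x p.1)| :=
        abs_sub _ _
      linarith
  have F2a : ∀ p ∈ S, ∀ q ∈ K, lin p.2 (x q.1) = lin q.2 (x p.1) := by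
    intro p hp q hq
    induction hq using AddSubgroup.closure_induction with
    | mem q hq => exact F2S p hp q hq
    | zero => simp only [Prod.fst_zero, Prod.snd_zero, map_zero, lin_zero_left, lin_zero_right]
    | add q r _ _ h1 h2 =>
      simp only [Prod.fst_add, Prod.snd_add, map_add, lin_add_left, lin_add_right, h1, h2]
    | neg q _ h1 =>
      simp only [Prod.fst_neg, Prod.snd_neg, map_neg, lin_neg_left, lin_neg_right, h1]
  have F2 : ∀ p ∈ K, ∀ q ∈ K, lin p.2 (x q.1) = lin q.2 (x p.1) := by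
    intro p hp q hq
    induction hp using AddSubgroup.closure_induction with
    | mem p hp => exact F2a p hp q hq
    | zero => simp only [Prod.fst_zero, Prod.snd_zero, map_zero, lin_zero_left, lin_zero_right]
    | add p r _ _ h1 h2 =>
      simp only [Prod.fst_add, Prod.snd_add, map_add, lin_add_left, lin_add_right, h1, h2]
    | neg p _ h1 =>
      simp only [Prod.fst_neg, Prod.snd_neg, map_neg, lin_neg_left, lin_neg_right, h1]
  -- the homomorphism on `K`
  let D : K →+ T := AddMonoidHom.mk' (fun p => φ (p : H × (Fin d → ℝ)).1 - φ 0 -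
    ((lin (p : H × (Fin d → ℝ)).2 (x (p : H × (Fin d → ℝ)).1) / 2 : ℝ) : T)) (by
    intro p q
    have h1 := F1 p.1 p.2 q.1.1
    have h2 := F2 p.1 p.2 q.1 q.2
    rw [hB, form_apply] at h1
    have h3 : φ (p.1.1 + q.1.1) = ((lin p.1.2 (x q.1.1) : ℝ) : T) + φ p.1.1 + φ q.1.1 - φ 0 := by
      rw [← h1]
      abel
    have h4 : lin (p.1.2 + q.1.2) (x (p.1.1 + q.1.1)) / 2 =
        lin p.1.2 (x p.1.1) / 2 + lin q.1.2 (x q.1.1) / 2 + lin p.1.2 (x q.1.1) := by
      rw [map_add, lin_add_left, lin_add_right, lin_add_right, ← h2]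
      ring
    simp only [AddSubgroup.coe_add, Prod.fst_add, Prod.snd_add]
    rw [h3, h4, AddCircle.coe_add, AddCircle.coe_add]
    abel)
  let π : K →+ H := (AddMonoidHom.fst H (Fin d → ℝ)).comp K.subtype
  have hπ : Function.Injective π := by
    rw [injective_iff_map_eq_zero]
    intro p hp
    have hp1 : p.1.1 = 0 := hp
    have hw : p.1.2 = 0 := by
      apply eq_zero_of_int x hx
      intro g
      rw [← F1 p.1 p.2 g, hp1, map_zero, AddMonoidHom.zero_apply]
    apply Subtype.ext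
    exact Prod.ext hp1 hw
  obtain ⟨χ, hχ⟩ := (Module.Baer.of_divisible UnitAddCircle).extension_property_addMonoidHom
    π hπ D
  refine ⟨χ, δ, hδ0, fun h w hxh hw hform => ?_⟩
  have hmem : (h, w) ∈ K := AddSubgroup.subset_closure ⟨hform, hxh, hw⟩
  have h1 : χ h = φ h - φ 0 - ((lin w (x h) / 2 : ℝ) : T) := DFunLike.congr_fun hχ ⟨(h, w), hmem⟩
  rw [h1]
  abel

end Pool.Agent.Work.MP_0f91f8_co.Nil
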