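import Pool.Agent.Work.MP_0f91f8_co.Nil.Stmts

open Filter Topology

namespace Pool.Agent.Work.MP_0f91f8_co.Nil

open Quad Finset

namespace I_CORE

lemma norm_coe_le (r : ℝ) : ‖((r : ℝ) : UnitAddCircle)‖ ≤ |r| := by
  rw [UnitAddCircle.norm_eq]
  have := round_le r 0
  simpa using this

lemma lin_sub {d : ℕ} (w w' y : Fin d → ℝ) : lin (w - w') y = lin w y - lin w' y := by
  unfold lin
  rw [← Finset.sum_sub_distrib]
  apply Finset.sum_congr rfl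
  intro j _
  rw [Pi.sub_apply]
  ring

lemma lin_bound {d : ℕ} (w y : Fin d → ℝ) (C δ : ℝ) (hC : 0 ≤ C)
    (hw : ∀ j, |w j| ≤ C) (hy : ‖y‖ ≤ δ) : |lin w y| ≤ d * (C * δ) := by
  unfold lin
  have h1 : ∀ j ∈ (Finset.univ : Finset (Fin d)), |w j * y j| ≤ C * δ := by
    intro j _
    rw [abs_mul]
    have h2 : |y j| ≤ δ := (norm_le_pi_norm y j).trans hy
    exact mul_le_mul (hw j) h2 (abs_nonneg _) hC
  calc |∑ j, w j * y j| ≤ ∑ j, |w j * y j| := Finset.abs_sum_le_sum_abs _ _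
    _ ≤ ∑ _j : Fin d, C * δ := Finset.sum_le_sum h1
    _ = d * (C * δ) := by simp

end I_CORE

open I_CORE in
theorem CORE_pf (hD : DUAL) (hC : CHI) (hTe : TEST) : CORE := by
  intro H _ d x e he hdense Tr hT q φ hφ ε hε
  classical
  obtain ⟨n, hn⟩ := hD (Fin q ⊕ Fin q) d ε hε
  set Ψ : Finset (Fin q → ℤ) := Fintype.piFinset (fun _ => Finset.Icc (-(n : ℤ)) n) with hΨ
  have hmemΨ : ∀ ψ : Fin q → ℤ, (∀ i, |ψ i| ≤ n) → ψ ∈ Ψ := by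
    intro ψ h
    rw [hΨ, Fintype.mem_piFinset]
    intro i
    rw [Finset.mem_Icc]
    exact abs_le.1 (h i)
  obtain ⟨B, hB⟩ : ∃ B : (Fin q → ℤ) → H →+ H →+ T,
      B = fun ψ => form (comb φ ψ) (comb_quadr φ hφ ψ) := ⟨_, rfl⟩
  have hn0 : (0 : ℝ) ≤ n := Nat.cast_nonneg n
  have hχex : ∀ ψ : Fin q → ℤ, ∃ (χ : H →+ T) (δ : ℝ), 0 < δ ∧
      ∀ (h : H) (w : Fin d → ℝ), ‖x h‖ ≤ δ → (∀ j, |w j| ≤ 2 * (n : ℝ) + 1) →
        (∀ g, B ψ h g = ((lin w (x g) : ℝ) : T)) →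
        comb φ ψ h - comb φ ψ 0 = ((lin w (x h) / 2 : ℝ) : T) + χ h := by
    intro ψ
    rw [hB]
    exact hC H d x hdense (comb φ ψ) (comb_quadr φ hφ ψ) (2 * (n : ℝ) + 1) (by positivity)
  choose χ dχ hdχ hχ using hχex
  obtain ⟨δ₁, hδ₁, hδ₁le⟩ := exists_pos_le Ψ dχ (fun ψ _ => hdχ ψ)
  have hM : (0 : ℝ) < ((d : ℝ) + 1) * (2 * (n : ℝ) + 1) := by positivity
  obtain ⟨δ₀, hδ₀, hδ₀ε, hδ₀1, hδ₀M⟩ : ∃ δ₀ : ℝ, 0 < δ₀ ∧ δ₀ ≤ ε ∧ δ₀ ≤ δ₁ ∧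
      ((d : ℝ) + 1) * (2 * (n : ℝ) + 1) * δ₀ ≤ 1 / 24 := by
    refine ⟨min (min ε δ₁) (1 / 24 / (((d : ℝ) + 1) * (2 * (n : ℝ) + 1))),
      lt_min (lt_min hε hδ₁) (by positivity), (min_le_left _ _).trans (min_le_left _ _),
      (min_le_left _ _).trans (min_le_right _ _), ?_⟩
    have h1 := min_le_right (min ε δ₁) (1 / 24 / (((d : ℝ) + 1) * (2 * (n : ℝ) + 1)))
    rw [le_div_iff₀ hM] at h1
    rw [mul_comm]
    exact h1
  obtain ⟨Rel, hRel⟩ : ∃ Rel : (Fin q → ℤ) → H → Prop, Rel = fun ψ h =>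
      ∃ w : Fin d → ℝ, (∀ j, |w j| ≤ (n : ℝ)) ∧ ∀ g, B ψ h g = ((lin w (x g) : ℝ) : T) :=
    ⟨_, rfl⟩
  have hRel_iff : ∀ ψ h, Rel ψ h ↔
      ∃ w : Fin d → ℝ, (∀ j, |w j| ≤ (n : ℝ)) ∧ ∀ g, B ψ h g = ((lin w (x g) : ℝ) : T) := by
    intro ψ h
    rw [hRel]
  set U₀ : Set H := {κ | ‖x κ‖ < δ₀ ∧ ∀ ψ ∈ Ψ, ‖χ ψ κ‖ < 1 / 24} with hU₀
  have h0 : (0 : H) ∈ U₀ := by
    refine ⟨?_, ?_⟩
    · rw [map_zero, norm_zero]
      exact hδ₀
    · intro ψ _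
      rw [map_zero, norm_zero]
      norm_num
  set nc : H → ℕ := fun κ => (Ψ.filter (fun ψ => Rel ψ κ)).card with hnc
  obtain ⟨κ, hκ, hmin⟩ : ∃ κ ∈ U₀, ∀ κ' ∈ U₀, nc κ ≤ nc κ' := by
    obtain ⟨κ, hκ, h⟩ := (measure nc).wf.has_min U₀ ⟨0, h0⟩
    exact ⟨κ, hκ, fun κ' hκ' => not_lt.1 (h κ' hκ')⟩
  have hKex : ∀ ψ, ∃ (K : Finset H) (η : ℝ), 0 < η ∧ (¬ Rel ψ κ →
      ∀ w : Fin d → ℝ, (∀ j, |w j| ≤ (n : ℝ)) →
        ∃ k ∈ K, η ≤ ‖B ψ κ k - ((lin w (x k) : ℝ) : T)‖) := by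
    intro ψ
    by_cases h : Rel ψ κ
    · exact ⟨∅, 1, one_pos, fun h' => absurd h h'⟩
    · obtain ⟨K, η, hη, hK⟩ := hTe H d x (B ψ κ) n (by
        intro w hw
        by_contra hcon
        push Not at hcon
        exact h ((hRel_iff ψ κ).2 ⟨w, hw, hcon⟩))
      exact ⟨K, η, hη, fun _ => hK⟩
  choose K η hη hK using hKex
  obtain ⟨δ', hδ', hδ'le⟩ := exists_pos_le Ψ (fun ψ => min (1 / 24 - ‖χ ψ κ‖) (η ψ / 3)) (by
    intro ψ hψ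
    apply lt_min
    · have := hκ.2 ψ hψ
      linarith
    · have := hη ψ
      linarith)
  obtain ⟨δ, hδ, hδδ', hδx, hδε, hδ24⟩ : ∃ δ : ℝ, 0 < δ ∧ δ ≤ δ' ∧ δ ≤ δ₀ - ‖x κ‖ ∧ δ ≤ ε ∧
      δ ≤ 1 / 24 := by
    refine ⟨min (min δ' (δ₀ - ‖x κ‖)) (min ε (1 / 24)),
      lt_min (lt_min hδ' (by have := hκ.1; linarith)) (lt_min hε (by norm_num)),
      (min_le_left _ _).trans (min_le_left _ _), (min_le_left _ _).trans (min_le_right _ _),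
      (min_le_right _ _).trans (min_le_left _ _), (min_le_right _ _).trans (min_le_right _ _)⟩
  have hδχ : ∀ ψ ∈ Ψ, δ ≤ 1 / 24 - ‖χ ψ κ‖ := fun ψ hψ =>
    hδδ'.trans ((hδ'le ψ hψ).trans (min_le_left _ _))
  have hδη : ∀ ψ ∈ Ψ, δ ≤ η ψ / 3 := fun ψ hψ =>
    hδδ'.trans ((hδ'le ψ hψ).trans (min_le_right _ _))
  -- the test homomorphisms
  set 𝓕 : Set (H →+ T) := (χ '' (Ψ : Set (Fin q → ℤ))) ∪
    ((fun p : (Fin q → ℤ) × H => (B p.1).flip p.2) ''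
      ((Ψ ×ˢ (Ψ.biUnion K) : Finset _) : Set ((Fin q → ℤ) × H))) with h𝓕
  have h𝓕fin : 𝓕.Finite := ((Finset.finite_toSet _).image _).union ((Finset.finite_toSet _).image _)
  obtain ⟨a, b, hab, hxa, hxb, hF⟩ := hT 𝓕 h𝓕fin κ δ hδ
  have hFχ : ∀ ψ ∈ Ψ, ‖χ ψ a‖ < δ ∧ ‖χ ψ b - χ ψ κ‖ < δ := fun ψ hψ =>
    hF _ (Or.inl ⟨ψ, hψ, rfl⟩)
  have hFk : ∀ ψ ∈ Ψ, ∀ ψ' ∈ Ψ, ∀ k ∈ K ψ', ‖B ψ a k‖ < δ ∧ ‖B ψ b k - B ψ κ k‖ < δ := by
    intro ψ hψ ψ' hψ' k hk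
    have h1 : (B ψ).flip k ∈ 𝓕 := by
      refine Or.inr ⟨(ψ, k), ?_, rfl⟩
      rw [Finset.mem_coe, Finset.mem_product]
      exact ⟨hψ, Finset.mem_biUnion.2 ⟨ψ', hψ', hk⟩⟩
    have h2 := hF _ h1
    simp only [AddMonoidHom.flip_apply] at h2
    exact h2
  have hxb' : ‖x b‖ < δ₀ := by
    have h3 : ‖x b‖ ≤ ‖x b - x κ‖ + ‖x κ‖ := by
      have := norm_add_le (x b - x κ) (x κ)
      rwa [sub_add_cancel] at this
    linarith
  have hxa' : ‖x a‖ < δ₀ := by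
    have := norm_nonneg (x κ)
    linarith
  have hbU : b ∈ U₀ := by
    refine ⟨hxb', ?_⟩
    intro ψ hψ
    have h1 := (hFχ ψ hψ).2
    have h2 := hδχ ψ hψ
    have h3 : ‖χ ψ b‖ ≤ ‖χ ψ b - χ ψ κ‖ + ‖χ ψ κ‖ := by
      have := norm_add_le (χ ψ b - χ ψ κ) (χ ψ κ)
      rwa [sub_add_cancel] at this
    linarith
  have hsub : Ψ.filter (fun ψ => Rel ψ b) ⊆ Ψ.filter (fun ψ => Rel ψ κ) := by
    intro ψ hψ
    rw [Finset.mem_filter] at hψ ⊢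
    refine ⟨hψ.1, ?_⟩
    by_contra hne
    obtain ⟨w, hw, hwB⟩ := (hRel_iff ψ b).1 hψ.2
    obtain ⟨k, hkK, hk⟩ := hK ψ hne w hw
    have h1 := (hFk ψ hψ.1 ψ hψ.1 k hkK).2
    rw [← hwB k, ← norm_neg, neg_sub] at hk
    have h2 := hδη ψ hψ.1
    have h3 := hη ψ
    linarith
  have heq : Ψ.filter (fun ψ => Rel ψ b) = Ψ.filter (fun ψ => Rel ψ κ) :=
    Finset.eq_of_subset_of_card_le hsub (hmin b hbU)
  obtain ⟨g, hgx, hg⟩ := hn H x e he (fun j => Sum.elim (fun i => form (φ i) (hφ i) a)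
    (fun i => form (φ i) (hφ i) b) j)
    (fun j => Sum.elim (fun i => -(φ i a - φ i 0)) (fun i => -(φ i b - φ i 0)) j) (by
    intro ψ w hψ hw hψ0
    have h1 : ψ ∘ Sum.inl ∈ Ψ := hmemΨ _ fun i => hψ _
    have h2 : ψ ∘ Sum.inr ∈ Ψ := hmemΨ _ fun i => hψ _
    have h3 : ∀ g, B (ψ ∘ Sum.inl) a g + B (ψ ∘ Sum.inr) b g = ((lin w (x g) : ℝ) : T) := by
      intro g
      have := hψ0 g
      rw [Fintype.sum_sum_type] at this
      simp only [Sum.elim_inl, Sum.elim_inr] at this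
      rw [hB]
      simp only
      rw [form_comb φ hφ, form_comb φ hφ]
      exact this
    rw [Fintype.sum_sum_type]
    simp only [Sum.elim_inl, Sum.elim_inr, smul_neg, Finset.sum_neg_distrib, smul_sub,
      Finset.sum_sub_distrib]
    by_cases hκ2 : Rel (ψ ∘ Sum.inr) κ
    · have hb2 : Rel (ψ ∘ Sum.inr) b := by
        have : ψ ∘ Sum.inr ∈ Ψ.filter (fun ψ => Rel ψ b) := by
          rw [heq, Finset.mem_filter]
          exact ⟨h2, hκ2⟩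
        exact (Finset.mem_filter.1 this).2
      obtain ⟨w2, hw2, hw2B⟩ := (hRel_iff _ _).1 hb2
      have hw1 : ∀ j, |(w - w2) j| ≤ 2 * (n : ℝ) + 1 := by
        intro j
        rw [Pi.sub_apply]
        have := abs_sub (w j) (w2 j)
        have h4 := hw j
        have h5 := hw2 j
        linarith
      have hw2' : ∀ j, |w2 j| ≤ 2 * (n : ℝ) + 1 := fun j => by
        have h5 := hw2 j
        linarith
      have ha1 : ∀ g, B (ψ ∘ Sum.inl) a g = ((lin (w - w2) (x g) : ℝ) : T) := by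
        intro g
        have := h3 g
        rw [hw2B g] at this
        rw [lin_sub, AddCircle.coe_sub, ← this]
        abel
      have h4 := hχ (ψ ∘ Sum.inl) a (w - w2) (hxa'.le.trans (hδ₀1.trans (hδ₁le _ h1))) hw1 ha1
      have h5 := hχ (ψ ∘ Sum.inr) b w2 (hxb'.le.trans (hδ₀1.trans (hδ₁le _ h2))) hw2' hw2B
      have h6 := (hFχ _ h1).1
      have h7 := hbU.2 _ h2
      have hb1 : ‖((lin (w - w2) (x a) / 2 : ℝ) : T)‖ ≤ 1 / 48 := by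
        refine (norm_coe_le _).trans ?_
        have h8 := lin_bound (w - w2) (x a) (2 * (n : ℝ) + 1) δ₀ (by positivity) hw1 hxa'.le
        rw [abs_div, abs_two]
        have h9 : 0 ≤ (2 * (n : ℝ) + 1) * δ₀ := by positivity
        nlinarith
      have hb2 : ‖((lin w2 (x b) / 2 : ℝ) : T)‖ ≤ 1 / 48 := by
        refine (norm_coe_le _).trans ?_
        have h8 := lin_bound w2 (x b) (2 * (n : ℝ) + 1) δ₀ (by positivity) hw2' hxb'.le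
        rw [abs_div, abs_two]
        have h9 : 0 ≤ (2 * (n : ℝ) + 1) * δ₀ := by positivity
        nlinarith
      have h10 : ‖comb φ (ψ ∘ Sum.inl) a - comb φ (ψ ∘ Sum.inl) 0‖ ≤ 1 / 48 + 1 / 24 := by
        rw [h4]
        refine (norm_add_le _ _).trans ?_
        linarith
      have h11 : ‖comb φ (ψ ∘ Sum.inr) b - comb φ (ψ ∘ Sum.inr) 0‖ ≤ 1 / 48 + 1 / 24 := by
        rw [h5]
        refine (norm_add_le _ _).trans ?_
        linarith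
      have h12 := norm_add_le (-(comb φ (ψ ∘ Sum.inl) a - comb φ (ψ ∘ Sum.inl) 0))
        (-(comb φ (ψ ∘ Sum.inr) b - comb φ (ψ ∘ Sum.inr) 0))
      rw [norm_neg, norm_neg] at h12
      refine h12.trans ?_
      linarith
    · exfalso
      obtain ⟨k, hkK, hk⟩ := hK (ψ ∘ Sum.inr) hκ2 w hw
      have h4 := h3 k
      have h5 := (hFk _ h1 _ h2 k hkK).1
      have h6 := (hFk _ h2 _ h2 k hkK).2
      have h7 := hδη _ h2
      have h8 := hη (ψ ∘ Sum.inr)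
      have h9 : B (ψ ∘ Sum.inr) κ k - ((lin w (x k) : ℝ) : T) =
          -(B (ψ ∘ Sum.inr) b k - B (ψ ∘ Sum.inr) κ k) - B (ψ ∘ Sum.inl) a k := by
        rw [← h4]
        abel
      rw [h9] at hk
      have h10 := norm_sub_le (-(B (ψ ∘ Sum.inr) b k - B (ψ ∘ Sum.inr) κ k))
        (B (ψ ∘ Sum.inl) a k)
      rw [norm_neg] at h10
      linarith)
  refine ⟨a, b, g, hab, lt_of_lt_of_le hxa hδε, lt_of_lt_of_le hxb' hδ₀ε, hgx,
    fun i => ⟨?_, ?_⟩⟩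
  · have h1 := hg (Sum.inl i)
    simp only [Sum.elim_inl, form_apply] at h1
    have h2 : -(φ i a - φ i 0) - (φ i (a + g) - φ i a - φ i g + φ i 0) =
        -(φ i (g + a) - φ i g) := by
      rw [add_comm a g]
      abel
    rwa [h2, norm_neg] at h1
  · have h1 := hg (Sum.inr i)
    simp only [Sum.elim_inr, form_apply] at h1
    have h2 : -(φ i b - φ i 0) - (φ i (b + g) - φ i b - φ i g + φ i 0) =
        -(φ i (g + b) - φ i g) := by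
      rw [add_comm b g]
      abel
    rwa [h2, norm_neg] at h1

end Pool.Agent.Work.MP_0f91f8_co.Nil
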