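import Pool.Agent.Work.MP_0f91f8_co.Nil.Stmts

/-!
Block [0f91f8 NQ], item DUAL: finite duality near zero.
-/

namespace Pool.Agent.Work.MP_0f91f8_co.Nil

open Quad

namespace I_DUAL

/-- the projection of the line to the circle -/
def pr : ℝ →+ T := QuotientAddGroup.mk' (AddSubgroup.zmultiples (1 : ℝ))

lemma pr_apply (y : ℝ) : pr y = ((y : ℝ) : T) := rfl

lemma norm_pr (y : ℝ) : ‖pr y‖ = |y - round y| := UnitAddCircle.norm_eq

lemma norm_pr_le (y : ℝ) : ‖pr y‖ ≤ |y| := by
  rw [norm_pr]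
  have h := round_le y 0
  simpa using h

/-- the linear form of `x` as a homomorphism -/
def linH {H : Type} [AddCommGroup H] {d : ℕ} (x : H →+ (Fin d → ℝ)) (w : Fin d → ℝ) :
    H →+ ℝ where
  toFun g := lin w (x g)
  map_zero' := by simp [lin]
  map_add' := by
    intro a b
    simp [lin, mul_add, Finset.sum_add_distrib]

lemma linH_apply {H : Type} [AddCommGroup H] {d : ℕ} (x : H →+ (Fin d → ℝ)) (w : Fin d → ℝ)
    (g : H) : linH x w g = lin w (x g) := rfl

lemma abs_lin_le {d : ℕ} (w y : Fin d → ℝ) (r : ℝ) (hw : ∀ j, |w j| ≤ 1) (hy : ∀ j, |y j| ≤ r) :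
    |lin w y| ≤ d * r := by
  unfold lin
  refine (Finset.abs_sum_le_sum_abs _ _).trans ?_
  calc ∑ j, |w j * y j| ≤ ∑ _j : Fin d, r := by
        apply Finset.sum_le_sum
        intro j _
        rw [abs_mul]
        have h1 := hw j
        have h2 := hy j
        have h3 := abs_nonneg (w j)
        have h4 := abs_nonneg (y j)
        nlinarith
    _ = d * r := by simp

lemma lin_comb {σ : Type} [Fintype σ] {d : ℕ} (ψ : σ → ℤ) (k : Fin d → ℤ)
    (w : σ → Fin d → ℝ) (y : Fin d → ℝ) :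
    lin (fun j => (∑ s, (ψ s : ℝ) * w s j) - k j) y =
      (∑ s, (ψ s : ℝ) * lin (w s) y) - ∑ j, (k j : ℝ) * y j := by
  unfold lin
  simp only [sub_mul, Finset.sum_sub_distrib]
  congr 1
  simp only [Finset.sum_mul, Finset.mul_sum]
  rw [Finset.sum_comm]
  apply Finset.sum_congr rfl
  intro s _
  apply Finset.sum_congr rfl
  intro j _
  ring

lemma zsmul_pr (k : ℤ) (y : ℝ) : k • pr y = pr ((k : ℝ) * y) := by
  rw [← map_zsmul, zsmul_eq_mul]

lemma bound {σ : Type} [Fintype σ] (ψ : σ → ℤ) (k : ℤ) (w : σ → ℝ) (n : ℕ)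
    (hψ : ∀ s, |ψ s| ≤ (n : ℤ)) (hk : |k| ≤ (n : ℤ)) (hw : ∀ s, |w s| ≤ 1) :
    |(∑ s, (ψ s : ℝ) * w s) - k| ≤ ((n * (Fintype.card σ + 1) : ℕ) : ℝ) := by
  have h1 : |(∑ s, (ψ s : ℝ) * w s)| ≤ (Fintype.card σ : ℝ) * n := by
    refine (Finset.abs_sum_le_sum_abs _ _).trans ?_
    calc ∑ s, |(ψ s : ℝ) * w s| ≤ ∑ _s : σ, (n : ℝ) := by
          apply Finset.sum_le_sum
          intro s _
          rw [abs_mul]
          have h1 : |(ψ s : ℝ)| ≤ n := by exact_mod_cast hψ s
          have h2 := hw s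
          have h3 := abs_nonneg (w s)
          have h4 := abs_nonneg (ψ s : ℝ)
          nlinarith
      _ = (Fintype.card σ : ℝ) * n := by simp
  have h2 : |(k : ℝ)| ≤ n := by exact_mod_cast hk
  have h3 := abs_sub (∑ s, (ψ s : ℝ) * w s) (k : ℝ)
  push_cast
  nlinarith

end I_DUAL

open I_DUAL in
theorem DUAL_pf : DUAL := by
  intro σ _ d ε hε
  have hd : (0 : ℝ) ≤ d := Nat.cast_nonneg d
  have hm : 0 < min ε 1 := lt_min hε one_pos
  obtain ⟨r, hr⟩ : ∃ r : ℝ, r = min ε 1 / (2 * ((d : ℝ) + 1)) := ⟨_, rfl⟩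
  have hr0 : 0 < r := by rw [hr]; positivity
  have hr1 : ((d : ℝ) + 1) * r < ε := by
    have h1 : ((d : ℝ) + 1) * r = min ε 1 / 2 := by
      rw [hr]
      field_simp
    rw [h1]
    have := min_le_left ε 1
    linarith
  obtain ⟨n0, hn0⟩ := exists_near.{0, 0} (σ ⊕ Fin d) r hr0
  refine ⟨n0 * (Fintype.card σ + 1), ?_⟩
  intro H _ x e he θ v hyp
  choose w hw hw' hw1 using fun (s : σ) (j : Fin d) => exists_lift (θ s (e j))
  have hw1' : ∀ s j, |w s j| ≤ 1 := fun s j => (hw1 s j).trans (by norm_num)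
  obtain ⟨θ', hθ'⟩ : ∃ θ' : σ ⊕ Fin d → H →+ T, θ' = Sum.elim
      (fun s => θ s - pr.comp (linH x (w s)))
      (fun j => pr.comp ((Pi.evalAddMonoidHom (fun _ : Fin d => ℝ) j).comp x)) := ⟨_, rfl⟩
  have hθl : ∀ s g, θ' (Sum.inl s) g = θ s g - pr (lin (w s) (x g)) := by
    intro s g
    rw [hθ']
    rfl
  have hθr : ∀ j g, θ' (Sum.inr j) g = pr (x g j) := by
    intro j g
    rw [hθ']
    rfl
  have hkill : ∀ i l, θ' i (e l) = 0 := by
    intro i l
    rcases i with s | j
    · rw [hθl, he]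
      have h1 : lin (w s) (Pi.single l 1) = w s l := by
        unfold lin
        simp [Pi.single_apply]
      rw [h1, pr_apply, hw, sub_self]
    · rw [hθr, he]
      by_cases hjl : j = l
      · subst hjl
        rw [Pi.single_eq_same, pr_apply]
        exact AddCircle.coe_period 1
      · rw [Pi.single_eq_of_ne hjl, map_zero]
  obtain ⟨g0, hg0⟩ := hn0 H θ' (Sum.elim v (fun _ => 0)) (by
    intro ψ hψ hrel
    have h1 := hyp (fun s => ψ (Sum.inl s))
      (fun j => (∑ s, (ψ (Sum.inl s) : ℝ) * w s j) - (ψ (Sum.inr j) : ℝ))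
      (by
        intro s
        refine (hψ (Sum.inl s)).trans ?_
        exact_mod_cast Nat.le_mul_of_pos_right n0 (Nat.succ_pos _))
      (by
        intro j
        exact bound (fun s => ψ (Sum.inl s)) (ψ (Sum.inr j)) (fun s => w s j) n0
          (fun s => hψ _) (hψ _) (fun s => hw1' s j))
      (by
        intro g
        have h2 := hrel g
        rw [Fintype.sum_sum_type] at h2
        simp only [hθl, hθr, smul_sub, Finset.sum_sub_distrib, zsmul_pr] at h2
        rw [← pr_apply, lin_comb, map_sub, map_sum, map_sum]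
        rw [sub_add, sub_eq_zero] at h2
        exact h2)
    rw [Fintype.sum_sum_type]
    simpa using h1)
  obtain ⟨g, hg⟩ : ∃ g, g = g0 - ∑ j, round (x g0 j) • e j := ⟨_, rfl⟩
  have hθg : ∀ i, θ' i g = θ' i g0 := by
    intro i
    rw [hg, map_sub, map_sum]
    simp only [map_zsmul, hkill, smul_zero, Finset.sum_const_zero, sub_zero]
  have hxg : ∀ j, x g j = x g0 j - round (x g0 j) := by
    intro j
    rw [hg, map_sub, map_sum, Pi.sub_apply, Finset.sum_apply]
    congr 1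
    rw [Finset.sum_eq_single j]
    · rw [map_zsmul, he, Pi.smul_apply, Pi.single_eq_same, zsmul_eq_mul, mul_one]
    · intro l _ hl
      rw [map_zsmul, he, Pi.smul_apply, Pi.single_eq_of_ne hl.symm, smul_zero]
    · intro hj
      exact absurd (Finset.mem_univ j) hj
  have hxr : ∀ j, |x g j| < r := by
    intro j
    have h1 := hg0 (Sum.inr j)
    rw [Sum.elim_inr, zero_sub, norm_neg, hθr, norm_pr] at h1
    rw [hxg]
    exact h1
  refine ⟨g, ?_, ?_⟩
  · rw [pi_norm_lt_iff hε]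
    intro j
    rw [Real.norm_eq_abs]
    have := hxr j
    nlinarith
  · intro s
    have h1 := hg0 (Sum.inl s)
    rw [Sum.elim_inl, ← hθg, hθl] at h1
    have h2 : v s - θ s g = (v s - (θ s g - pr (lin (w s) (x g)))) - pr (lin (w s) (x g)) := by
      abel
    have h3 := norm_sub_le (v s - (θ s g - pr (lin (w s) (x g)))) (pr (lin (w s) (x g)))
    have h4 := (norm_pr_le (lin (w s) (x g))).trans
      (abs_lin_le (w s) (x g) r (hw1' s) (fun j => (hxr j).le))
    rw [h2]
    nlinarith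

end Pool.Agent.Work.MP_0f91f8_co.Nil
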