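import Pool.Agent.Work.MP_0f91f8_co.Nil.Stmts

/-!
Item LIMQ: limits along ultrafilters of dilations are locally quadratic on the rationals.
-/

open Filter Topology

namespace Pool.Agent.Work.MP_0f91f8_co.Nil

open Quad Bohr

namespace I_LIMQ

lemma addF_one {p : ℕ} {f : ℕ → Fin p → T} (hf : AddF f) : f 1 = 0 := by
  have h := hf 1 1 one_pos one_pos
  rw [mul_one] at h
  have h2 : f 1 + f 1 = f 1 + 0 := by rw [← h, add_zero]
  exact add_left_cancel h2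

lemma addF_pow {p : ℕ} {f : ℕ → Fin p → T} (hf : AddF f) {B : ℕ} (hB : 0 < B) (e : ℕ) :
    f (B ^ e) = e • f B := by
  induction e with
  | zero => rw [pow_zero, zero_smul, addF_one hf]
  | succ e ih => rw [pow_succ, hf _ _ (pow_pos hB e) hB, ih, succ_nsmul]

/-- a representation by integers at which the functions are small -/
lemma rep {p : ℕ} {f : ℕ → Fin p → T} {F : Fin p → PQ →+ T} (hf : AddF f)
    (hF : ∀ i, ∀ (n : ℕ) (h : 0 < (n : ℚ)), F i (pq n h) = f n i) {ρ : ℝ} (hρ : 0 < ρ) (a : PQ)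
    (ha : ∀ i, ‖F i a‖ < ρ) :
    ∃ a1 a2 : ℕ, 0 < a1 ∧ 0 < a2 ∧ vl a * a2 = a1 ∧ (∀ i, ‖f a2 i‖ < ρ) ∧
      ∀ i, ‖f a1 i - f a2 i‖ < ρ := by
  obtain ⟨A, B, hA, hB, hq⟩ := exists_nat_div (vl_pos a)
  obtain ⟨e, he, hmem⟩ := exists_pow _ (nhds_box (ι := Fin p) ρ hρ)
    (Multiplicative.ofAdd (f B))
  have hB' : (0 : ℚ) < B := by exact_mod_cast hB
  have h2 : 0 < B ^ e := pow_pos hB e
  have h1 : 0 < A * B ^ (e - 1) := Nat.mul_pos hA (pow_pos hB _)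
  have hval : vl a * ((B ^ e : ℕ) : ℚ) = ((A * B ^ (e - 1) : ℕ) : ℚ) := by
    rw [hq]
    obtain ⟨d, rfl⟩ : ∃ d, e = d + 1 := ⟨e - 1, by omega⟩
    rw [Nat.add_sub_cancel]
    push_cast
    rw [pow_succ]
    field_simp
  refine ⟨A * B ^ (e - 1), B ^ e, h1, h2, hval, fun i => ?_, fun i => ?_⟩
  · have h3 := hmem i
    rw [addF_pow hf hB]
    rw [← ofAdd_nsmul, toAdd_ofAdd] at h3
    exact h3
  · have p1 : (0 : ℚ) < ((A * B ^ (e - 1) : ℕ) : ℚ) := by exact_mod_cast h1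
    have p2 : (0 : ℚ) < ((B ^ e : ℕ) : ℚ) := by exact_mod_cast h2
    have h4 : a + pq _ p2 = pq _ p1 := by
      apply vl_inj
      rw [vl_add, vl_pq, vl_pq]
      exact hval
    have h5 : F i a = f (A * B ^ (e - 1)) i - f (B ^ e) i := by
      rw [← hF i _ p1, ← hF i _ p2, ← h4, map_add]
      abel
    rw [← h5]
    exact ha i

/-- the alternating sum of eight local identities -/
lemma cube {G : Type} [AddCommGroup G] (ψ : Fin 3 → Fin 3 → Fin 3 → G)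
    (h : ∀ x y z : Fin 3, ψ x y z + ψ x 0 0 + ψ 0 y 0 + ψ 0 0 z =
      ψ x y 0 + ψ x 0 z + ψ 0 y z + ψ 0 0 0) :
    ψ 1 1 1 + ψ 1 2 2 + ψ 2 1 2 + ψ 2 2 1 = ψ 1 1 2 + ψ 1 2 1 + ψ 2 1 1 + ψ 2 2 2 := by
  have e : ∀ x y z : Fin 3, ψ x y z = ψ x y 0 + ψ x 0 z + ψ 0 y z + ψ 0 0 0 -
      (ψ x 0 0 + ψ 0 y 0 + ψ 0 0 z) := by
    intro x y z
    rw [← h x y z]
    abel
  rw [e 1 1 1, e 1 2 2, e 2 1 2, e 2 2 1, e 1 1 2, e 1 2 1, e 2 1 1, e 2 2 2]
  abel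

lemma dom_pt {p : ℕ} {f : ℕ → Fin p → T} {n₀ : ℕ} {r : ℝ} {s : Fin p → T} {m n k : ℕ}
    {a2 b2 c2 : ℕ} (hf : AddF f) (hr : 0 < r) (hm : 0 < m) (hn : 0 < n) (ha2 : 0 < a2)
    (hb2 : 0 < b2) (hc2 : 0 < c2) (hk : k = n * a2 * b2 * c2)
    (hms : ∀ i, ‖f m i + s i - f n₀ i‖ < r / 4) (hks : ∀ i, ‖f k i - s i‖ < r / 16)
    {x y z : ℕ} (hx : 0 < x) (hy : 0 < y) (hz : 0 < z)
    (hxa : ∀ i, ‖f x i - f a2 i‖ < r / 16) (hyb : ∀ i, ‖f y i - f b2 i‖ < r / 16)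
    (hzc : ∀ i, ‖f z i - f c2 i‖ < r / 16) :
    Dom f n₀ r (m * n * x * y * z) := by
  refine ⟨by positivity, fun i => ?_⟩
  have e1 : f k i = f n i + f a2 i + f b2 i + f c2 i := by
    rw [hk, hf _ _ (by positivity) hc2, hf _ _ (by positivity) hb2, hf _ _ hn ha2]
    rfl
  have e2 : f (m * n * x * y * z) i = f m i + f n i + f x i + f y i + f z i := by
    rw [hf _ _ (by positivity) hz, hf _ _ (by positivity) hy, hf _ _ (by positivity) hx,
      hf _ _ hm hn]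
    rfl
  have e3 : f (m * n * x * y * z) i - f n₀ i = (f m i + s i - f n₀ i) + (f k i - s i) +
      (f x i - f a2 i) + (f y i - f b2 i) + (f z i - f c2 i) := by
    rw [e1, e2]
    abel
  rw [e3]
  have t1 := norm_add_le ((f m i + s i - f n₀ i) + (f k i - s i) +
      (f x i - f a2 i) + (f y i - f b2 i)) (f z i - f c2 i)
  have t2 := norm_add_le ((f m i + s i - f n₀ i) + (f k i - s i) +
      (f x i - f a2 i)) (f y i - f b2 i)
  have t3 := norm_add_le ((f m i + s i - f n₀ i) + (f k i - s i)) (f x i - f a2 i)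
  have t4 := norm_add_le (f m i + s i - f n₀ i) (f k i - s i)
  have := hms i
  have := hks i
  have := hxa i
  have := hyb i
  have := hzc i
  linarith

/-- the integers at which the local identities are used -/
def pt (a1 a2 : ℕ) : Fin 3 → ℕ := ![1, a1, a2]

lemma pt0 (a1 a2 : ℕ) : pt a1 a2 0 = 1 := rfl
lemma pt1 (a1 a2 : ℕ) : pt a1 a2 1 = a1 := rfl
lemma pt2 (a1 a2 : ℕ) : pt a1 a2 2 = a2 := rfl

lemma pt_pos {a1 a2 : ℕ} (h1 : 0 < a1) (h2 : 0 < a2) (x : Fin 3) : 0 < pt a1 a2 x := by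
  fin_cases x
  · exact one_pos
  · exact h1
  · exact h2

lemma pt_close {p : ℕ} {f : ℕ → Fin p → T} (hf : AddF f) {a1 a2 : ℕ} {ρ : ℝ} (hρ : 0 < ρ)
    (h2 : ∀ i, ‖f a2 i‖ < ρ) (h1 : ∀ i, ‖f a1 i - f a2 i‖ < ρ) (x : Fin 3) (i : Fin p) :
    ‖f (pt a1 a2 x) i - f a2 i‖ < ρ := by
  fin_cases x
  · show ‖f 1 i - f a2 i‖ < ρ
    rw [addF_one hf, Pi.zero_apply, zero_sub, norm_neg]
    exact h2 i
  · exact h1 i
  · show ‖f a2 i - f a2 i‖ < ρ
    rw [sub_self, norm_zero]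
    exact hρ

end I_LIMQ

open I_LIMQ in
theorem LIMQ_pf : LIMQ := by
  intro p f F n₀ r φ 𝒰 s m L hf hF hn₀ hr hφ hev hs hm hms hL a b c ha hb hc _ _ _ _
  have hρ : 0 < r / 16 := by positivity
  obtain ⟨a1, a2, ha1, ha2, hav, haF, haf⟩ := rep hf hF hρ a ha
  obtain ⟨b1, b2, hb1, hb2, hbv, hbF, hbf⟩ := rep hf hF hρ b hb
  obtain ⟨c1, c2, hc1, hc2, hcv, hcF, hcf⟩ := rep hf hF hρ c hc
  have pa := vl_pos a
  have pb := vl_pos b
  have pc := vl_pos c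
  have ha2' : (0 : ℚ) < a2 := by exact_mod_cast ha2
  have hb2' : (0 : ℚ) < b2 := by exact_mod_cast hb2
  have hc2' : (0 : ℚ) < c2 := by exact_mod_cast hc2
  simp only [vl_add, vl_zero]
  have h1 := ((((hL (vl a * vl b * vl c)).add (hL (vl a))).add (hL (vl b))).add
    (hL (vl c)))
  have h2 := ((((hL (vl a * vl b)).add (hL (vl a * vl c))).add (hL (vl b * vl c))).add
    (hL 1))
  refine tendsto_nhds_unique_of_eventuallyEq h1 h2 ?_
  have h3 := hev {1 / ((a2 : ℚ) * b2 * c2)} (by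
    intro q hq
    rw [Finset.mem_singleton] at hq
    rw [hq]
    positivity)
  have h4 : ∀ᶠ k : ℕ in (𝒰 : Filter ℕ), ∀ i, ‖f k i - s i‖ < r / 16 := by
    rw [eventually_all]
    intro i
    have h5 := (hs i).eventually (Metric.ball_mem_nhds (s i) hρ)
    filter_upwards [h5] with k hk
    rwa [dist_eq_norm] at hk
  filter_upwards [h3, h4] with k hk hks
  obtain ⟨hk0, hk⟩ := hk
  obtain ⟨n, hn, hnq⟩ := hk _ (Finset.mem_singleton_self _)
  have hkq : (k : ℚ) = n * a2 * b2 * c2 := by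
    rw [hnq]
    field_simp
  have hkn : k = n * a2 * b2 * c2 := by exact_mod_cast hkq
  -- the eight points
  have hdom : ∀ x y z : Fin 3,
      Dom f n₀ r (m * n * pt a1 a2 x * pt b1 b2 y * pt c1 c2 z) := by
    intro x y z
    exact dom_pt hf hr hm hn ha2 hb2 hc2 hkn hms hks (pt_pos ha1 ha2 x) (pt_pos hb1 hb2 y)
      (pt_pos hc1 hc2 z) (pt_close hf hρ haF haf x) (pt_close hf hρ hbF hbf y)
      (pt_close hf hρ hcF hcf z)
  have hcube := cube (fun x y z => φ (m * n * pt a1 a2 x * pt b1 b2 y * pt c1 c2 z)) (by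
    intro x y z
    have d0 := hdom 0 0 0
    have dx := hdom x 0 0
    have dy := hdom 0 y 0
    have dz := hdom 0 0 z
    have dxy := hdom x y 0
    have dxz := hdom x 0 z
    have dyz := hdom 0 y z
    have dxyz := hdom x y z
    simp only [pt0, mul_one] at d0 dx dy dz dxy dxz dyz dxyz ⊢
    exact hφ (m * n) _ _ _ d0 dx dy dz dxy dxz dyz dxyz)
  simp only [pt1, pt2] at hcube
  have hfl : ∀ (q : ℚ) (N : ℕ), (k : ℚ) * q = N → ⌊(k : ℚ) * q⌋₊ = N := by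
    intro q N hN
    rw [hN, Nat.floor_natCast]
  have va : (k : ℚ) * vl a = ((n * a1 * b2 * c2 : ℕ) : ℚ) := by
    rw [hkq]; push_cast; rw [← hav]; ring
  have vb : (k : ℚ) * vl b = ((n * a2 * b1 * c2 : ℕ) : ℚ) := by
    rw [hkq]; push_cast; rw [← hbv]; ring
  have vc : (k : ℚ) * vl c = ((n * a2 * b2 * c1 : ℕ) : ℚ) := by
    rw [hkq]; push_cast; rw [← hcv]; ring
  have vab : (k : ℚ) * (vl a * vl b) = ((n * a1 * b1 * c2 : ℕ) : ℚ) := by
    rw [hkq]; push_cast; rw [← hav, ← hbv]; ring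
  have vac : (k : ℚ) * (vl a * vl c) = ((n * a1 * b2 * c1 : ℕ) : ℚ) := by
    rw [hkq]; push_cast; rw [← hav, ← hcv]; ring
  have vbc : (k : ℚ) * (vl b * vl c) = ((n * a2 * b1 * c1 : ℕ) : ℚ) := by
    rw [hkq]; push_cast; rw [← hbv, ← hcv]; ring
  have vabc : (k : ℚ) * (vl a * vl b * vl c) = ((n * a1 * b1 * c1 : ℕ) : ℚ) := by
    rw [hkq]; push_cast; rw [← hav, ← hbv, ← hcv]; ring
  have v1 : (k : ℚ) * 1 = ((n * a2 * b2 * c2 : ℕ) : ℚ) := by
    rw [hkq]; push_cast; ring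
  rw [hfl _ _ va, hfl _ _ vb, hfl _ _ vc, hfl _ _ vab, hfl _ _ vac, hfl _ _ vbc, hfl _ _ vabc,
    hfl _ _ v1]
  have e : ∀ x y z : ℕ, m * (n * x * y * z) = m * n * x * y * z := by
    intro x y z
    ring
  simp only [e]
  exact hcube

end Pool.Agent.Work.MP_0f91f8_co.Nil
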