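import Pool.Agent.Work.MP_0f91f8_co.Nil.Stmts

/-! Item LOC of block [0f91f8 NQ]. -/

set_option autoImplicit false

namespace Pool.Agent.Work.MP_0f91f8_co.Nil

open Quad

namespace I_LOC

lemma torsion_small {t : T} {N : ℕ} (hN : 0 < N) (h : N • t = 0) (hs : ‖t‖ < 1 / (N : ℝ)) :
    t = 0 := by
  obtain ⟨y, rfl, hy, -⟩ := exists_lift t
  have hN' : (0 : ℝ) < N := by exact_mod_cast hN
  have h1 : (((N : ℝ) * y : ℝ) : T) = 0 := by
    have : (((N • y : ℝ)) : T) = N • (y : T) := AddCircle.coe_nsmul _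
    rw [nsmul_eq_mul] at this
    rw [this, h]
  obtain ⟨k, hk⟩ := (AddCircle.coe_eq_zero_iff (1 : ℝ)).1 h1
  rw [zsmul_eq_mul, mul_one] at hk
  have h2 : |(k : ℝ)| < 1 := by
    rw [hk, abs_mul, abs_of_pos hN', hy]
    have := mul_lt_mul_of_pos_left hs hN'
    rwa [mul_one_div_cancel hN'.ne'] at this
  have h3 : k = 0 := by
    have h4 : |k| < 1 := by exact_mod_cast h2
    exact Int.abs_lt_one_iff.1 h4
  rw [h3, Int.cast_zero] at hk
  have h5 : y = 0 := by
    rcases mul_eq_zero.1 hk.symm with h6 | h6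
    · exact absurd h6 hN'.ne'
    · exact h6
  rw [h5]
  rfl

/-- common kernel -/
def Ker {G : Type} [AddCommGroup G] {p : ℕ} (τ : Fin p → G →+ T) : AddSubgroup G where
  carrier := {g | ∀ j, τ j g = 0}
  zero_mem' := fun j => map_zero _
  add_mem' := by
    intro a b ha hb j
    rw [map_add, ha j, hb j, add_zero]
  neg_mem' := by
    intro a ha j
    rw [map_neg, ha j, neg_zero]

lemma ext_hom {G : Type} [AddCommGroup G] (K : AddSubgroup G) (F : K →+ T) :
    ∃ F' : G →+ T, ∀ g : K, F' g = F g := by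
  obtain ⟨χ, hχ⟩ := (Module.Baer.of_divisible UnitAddCircle).extension_property_addMonoidHom
    K.subtype K.subtype_injective F
  exact ⟨χ, fun g => DFunLike.congr_fun hχ g⟩

lemma twrec {G : Type} [AddCommGroup G] {p : ℕ} (τ : Fin p → G →+ T) {N : ℕ} (hN : 0 < N)
    (hτ : ∀ j, N • τ j = 0) (Tr : G → G → Prop) (h : TwRec Tr) :
    TwRec (fun a b : Ker τ => Tr a b) := by
  intro 𝓕 h𝓕 κ δ hδ
  choose ex hex using ext_hom (Ker τ)
  have hN' : (0 : ℝ) < N := by exact_mod_cast hN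
  have hfin : (ex '' 𝓕 ∪ Set.range τ).Finite := (h𝓕.image ex).union (Set.finite_range τ)
  obtain ⟨a, b, hab, hF⟩ := h _ hfin (κ : G) (min δ (1 / N)) (lt_min hδ (by positivity))
  have htor : ∀ (j : Fin p) (g : G), N • τ j g = 0 := by
    intro j g
    have := DFunLike.congr_fun (hτ j) g
    simpa using this
  have ha : a ∈ Ker τ := by
    intro j
    have h1 := (hF (τ j) (Or.inr ⟨j, rfl⟩)).1
    exact torsion_small hN (htor j a) (lt_of_lt_of_le h1 (min_le_right _ _))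
  have hb : b ∈ Ker τ := by
    intro j
    have h1 := (hF (τ j) (Or.inr ⟨j, rfl⟩)).2
    have h2 : τ j (κ : G) = 0 := κ.2 j
    rw [h2, sub_zero] at h1
    exact torsion_small hN (htor j b) (lt_of_lt_of_le h1 (min_le_right _ _))
  refine ⟨⟨a, ha⟩, ⟨b, hb⟩, hab, fun F hFm => ?_⟩
  obtain ⟨h1, h2⟩ := hF (ex F) (Or.inl ⟨F, hFm, rfl⟩)
  have e1 : ex F a = F ⟨a, ha⟩ := hex F ⟨a, ha⟩
  have e2 : ex F b = F ⟨b, hb⟩ := hex F ⟨b, hb⟩
  have e3 : ex F (κ : G) = F κ := hex F κ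
  rw [e1] at h1
  rw [e2, e3] at h2
  exact ⟨lt_of_lt_of_le h1 (min_le_left _ _), lt_of_lt_of_le h2 (min_le_left _ _)⟩

end I_LOC

theorem LOC_pf (hI : LOCI) (hR : REDUCE) : LOC := by
  intro G _ p f Tr hTr q φ r hr hφ ε hε
  obtain ⟨d, θ, τ, N, M, hN, hM, hτ, hθ, hfm⟩ := hR G p f
  let K := I_LOC.Ker τ
  let θ' : Fin d → K →+ T := fun i => (θ i).comp K.subtype
  have hInd : Indep θ' := by
    intro k hk
    apply hθ k
    intro g
    have hg : N • g ∈ K := by
      intro j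
      rw [map_nsmul]
      have := DFunLike.congr_fun (hτ j) g
      simpa using this
    have h1 := hk ⟨N • g, hg⟩
    have h2 : ∀ j, θ' j ⟨N • g, hg⟩ = N • θ j g := by
      intro j
      show θ j (N • g) = _
      rw [map_nsmul]
    simp only [h2] at h1
    rw [Finset.smul_sum, ← h1]
    refine Finset.sum_congr rfl fun j _ => ?_
    rw [smul_comm]
  have hT := I_LOC.twrec τ hN hτ Tr hTr
  have hr' : 0 < min r ε / M := div_pos (lt_min hr hε) hM
  have hMr : M * (min r ε / M) = min r ε := by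
    field_simp
  have hdom : ∀ g : K, (∀ i, ‖θ' i g‖ < min r ε / M) → ∀ j, ‖f j (g : G)‖ < min r ε := by
    intro g hg j
    have := hfm _ hr' (g : G) g.2 hg j
    rwa [hMr] at this
  have hdom' : ∀ g : K, (∀ i, ‖θ' i g‖ < min r ε / M) → ∀ j, ‖f j (g : G)‖ < r :=
    fun g hg j => lt_of_lt_of_le (hdom g hg j) (min_le_left _ _)
  have hLQ : ∀ i, LQ0 (fun g : K => ∀ j, ‖θ' j g‖ < min r ε / M)
      (fun g : K => φ i (g : G)) := by
    intro i a b c h1 h2 h3 h4 h5 h6 h7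
    have := hφ i (a : G) (b : G) (c : G) (hdom' a h1) (hdom' b h2) (hdom' c h3)
      (hdom' (a + b) h4) (hdom' (a + c) h5) (hdom' (b + c) h6) (hdom' (a + b + c) h7)
    exact this
  obtain ⟨a, b, g, hab, hs, hφs⟩ := hI K d θ' hInd _ hT q (fun i g => φ i (g : G)) _ hr' hLQ
    (min ε (min r ε / M)) (lt_min hε hr')
  refine ⟨a, b, g, hab, fun j => ⟨?_, ?_, ?_⟩, fun i => ⟨?_, ?_⟩⟩
  · exact lt_of_lt_of_le (hdom a (fun i => lt_of_lt_of_le (hs i).1 (min_le_right _ _)) j)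
      (min_le_right _ _)
  · exact lt_of_lt_of_le (hdom b (fun i => lt_of_lt_of_le (hs i).2.1 (min_le_right _ _)) j)
      (min_le_right _ _)
  · exact lt_of_lt_of_le (hdom g (fun i => lt_of_lt_of_le (hs i).2.2 (min_le_right _ _)) j)
      (min_le_right _ _)
  · exact lt_of_lt_of_le (hφs i).1 (min_le_left _ _)
  · exact lt_of_lt_of_le (hφs i).2 (min_le_left _ _)

end Pool.Agent.Work.MP_0f91f8_co.Nil
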