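import Pool.Agent.Work.MP_0f91f8_co.Nil.Stmts

namespace Pool.Agent.Work.MP_0f91f8_co.Nil

open Quad

namespace I_LOCI

theorem nle {G : Type} [AddCommGroup G] {d : ℕ} (f : Fin d → G →+ T) (h : lft f) (j : Fin d) :
    ‖f j (h : G × (Fin d → ℝ)).1‖ ≤ ‖xm f h‖ := by
  have h1 : (((h : G × (Fin d → ℝ)).2 j : ℝ) : T) = f j (h : G × (Fin d → ℝ)).1 := h.2 j
  rw [← h1]
  have h2 : ‖(((h : G × (Fin d → ℝ)).2 j : ℝ) : T)‖ ≤ |(h : G × (Fin d → ℝ)).2 j| := by
    rw [UnitAddCircle.norm_eq]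
    have := round_le ((h : G × (Fin d → ℝ)).2 j) 0
    simpa using this
  refine h2.trans ?_
  have h3 : ‖(xm f h) j‖ ≤ ‖xm f h‖ := norm_le_pi_norm (xm f h) j
  exact h3

/-- the lift of the `j`-th unit vector -/
def ev {G : Type} [AddCommGroup G] {d : ℕ} (f : Fin d → G →+ T) (j : Fin d) : lft f :=
  ⟨((0 : G), (Pi.single j (1 : ℝ) : Fin d → ℝ)), by
    intro i
    show (((Pi.single j (1 : ℝ) : Fin d → ℝ) i : ℝ) : T) = f i 0
    rw [(f i).map_zero]
    by_cases hij : i = j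
    · rw [hij, Pi.single_eq_same]
      exact AddCircle.coe_period (1 : ℝ)
    · rw [Pi.single_eq_of_ne hij]
      exact QuotientAddGroup.mk_zero _⟩

theorem xm_ev {G : Type} [AddCommGroup G] {d : ℕ} (f : Fin d → G →+ T) (j : Fin d) :
    xm f (ev f j) = Pi.single j 1 := rfl

end I_LOCI

open I_LOCI in
theorem LOCI_pf (hX2 : X2) (hCORE : CORE) (hDE : DENSE) (hTL : TLIFT) : LOCI := by
  intro G _ d f hf Tr hTr q φ r hr hφ ε hε
  have hd : DenseRange (xm f) := hDE G d f hf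
  have hT := hTL G d f Tr hTr
  have hloc : ∀ i, LQ0 (fun h : lft f => ‖xm f h‖ < r)
      (fun h : lft f => φ i (h : G × (Fin d → ℝ)).1) := by
    intro i a b c ha hb hc hab hac hbc habc
    have key : ∀ h : lft f, ‖xm f h‖ < r → ∀ j, ‖f j (h : G × (Fin d → ℝ)).1‖ < r :=
      fun h hh j => (nle f h j).trans_lt hh
    have := hφ i (a : G × (Fin d → ℝ)).1 (b : G × (Fin d → ℝ)).1 (c : G × (Fin d → ℝ)).1
      (key a ha) (key b hb) (key c hc) (key (a + b) hab) (key (a + c) hac) (key (b + c) hbc)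
      (key (a + b + c) habc)
    exact this
  choose Φ hΦq hΦe using fun i => hX2 (lft f) d (xm f) hd r hr _ (hloc i)
  obtain ⟨a, b, g, htr, ha, hb, hg, hq⟩ := hCORE (lft f) d (xm f) (ev f) (xm_ev f) hd _ hT q Φ hΦq
    (min ε (r / 256)) (lt_min hε (by positivity))
  have ha1 : ‖xm f a‖ < ε := ha.trans_le (min_le_left _ _)
  have hb1 : ‖xm f b‖ < ε := hb.trans_le (min_le_left _ _)
  have hg1 : ‖xm f g‖ < ε := hg.trans_le (min_le_left _ _)
  have ha2 : ‖xm f a‖ < r / 256 := ha.trans_le (min_le_right _ _)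
  have hb2 : ‖xm f b‖ < r / 256 := hb.trans_le (min_le_right _ _)
  have hg2 : ‖xm f g‖ < r / 256 := hg.trans_le (min_le_right _ _)
  have hga : ‖xm f (g + a)‖ < r / 64 := by
    rw [map_add]
    have := norm_add_le (xm f g) (xm f a)
    linarith
  have hgb : ‖xm f (g + b)‖ < r / 64 := by
    rw [map_add]
    have := norm_add_le (xm f g) (xm f b)
    linarith
  have hgg : ‖xm f g‖ < r / 64 := by linarith
  refine ⟨(a : G × (Fin d → ℝ)).1, (b : G × (Fin d → ℝ)).1, (g : G × (Fin d → ℝ)).1, htr,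
    fun j => ⟨(nle f a j).trans_lt ha1, (nle f b j).trans_lt hb1, (nle f g j).trans_lt hg1⟩,
    fun i => ?_⟩
  have e1 := hΦe i (g + a) hga
  have e2 := hΦe i (g + b) hgb
  have e3 := hΦe i g hgg
  have h1 := (hq i).1.trans_le (min_le_left _ _)
  have h2 := (hq i).2.trans_le (min_le_left _ _)
  rw [e1, e3] at h1
  rw [e2, e3] at h2
  exact ⟨h1, h2⟩

end Pool.Agent.Work.MP_0f91f8_co.Nil
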