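import Pool.Agent.Work.MP_0f91f8_co.Nil.Stmts
import Pool.Agent.Work.MP_0f91f8_co.BohrFinal

/-! Block NQ (0f91f8), item MAINF. -/

open Filter Topology

namespace Pool.Agent.Work.MP_0f91f8_co.Nil

open Quad

namespace I_MAINF

lemma twrec_tr : TwRec Quad.Tr := fun 𝓕 h𝓕 κ δ hδ => tr_rec 𝓕 h𝓕 κ δ hδ

lemma pq_add_eq {x k : ℕ} {g : PQ} (hx : 0 < (x : ℚ)) (hk : 0 < (k : ℚ))
    (h : (x : ℚ) = k * vl g) : pq (x : ℚ) hx = pq (k : ℚ) hk + g := by
  apply vl_inj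
  rw [vl_add, vl_pq, vl_pq, h]

/-- the value at a multiple of `k` -/
lemma val_eq {p : ℕ} {f : ℕ → Fin p → T} {F : Fin p → PQ →+ T}
    (hF : ∀ i, ∀ (n : ℕ) (h : 0 < (n : ℚ)), F i (pq n h) = f n i)
    {x k : ℕ} {g : PQ} (hk : 0 < k) (hx : 0 < x) (h : (x : ℚ) = k * vl g) (i : Fin p) :
    f x i = f k i + F i g := by
  have hx' : (0 : ℚ) < x := by exact_mod_cast hx
  have hk' : (0 : ℚ) < k := by exact_mod_cast hk
  rw [← hF i x hx', ← hF i k hk', pq_add_eq hx' hk' h, map_add]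

lemma norm_add_lt {a b : T} {s t : ℝ} (ha : ‖a‖ < s) (hb : ‖b‖ < t) : ‖a + b‖ < s + t :=
  lt_of_le_of_lt (norm_add_le _ _) (add_lt_add ha hb)

end I_MAINF

open I_MAINF in
theorem MAINF_pf (hLOC : LOC) (hSY : SYND) (hRF : RATF) (hLI : LIMQ) : MAINF := by
  classical
  intro p q f φ n₀ r hf hn₀ hr hφ A hA ε hε
  obtain ⟨ε₁, hε₁def⟩ : ∃ ε₁ : ℝ, ε₁ = min (ε / 4) (r / 16) := ⟨_, rfl⟩
  obtain ⟨ε', hε'def⟩ : ∃ ε' : ℝ, ε' = min (ε / 8) (r / 16) := ⟨_, rfl⟩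
  have hε₁ : 0 < ε₁ := by rw [hε₁def]; positivity
  have hε' : 0 < ε' := by rw [hε'def]; positivity
  have a1 : ε₁ ≤ ε / 4 := by rw [hε₁def]; exact min_le_left _ _
  have a2 : ε₁ ≤ r / 16 := by rw [hε₁def]; exact min_le_right _ _
  have a3 : ε' ≤ ε / 8 := by rw [hε'def]; exact min_le_left _ _
  have a4 : ε' ≤ r / 16 := by rw [hε'def]; exact min_le_right _ _
  obtain ⟨M, hMpos, hM⟩ := hSY p q f φ n₀ r hf hn₀ hr hφ ε₁ hε₁
  -- the filter of good dilations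
  let E : {S : Finset ℚ // ∀ q ∈ S, 0 < q} → Set ℕ := fun p =>
    {k | 0 < k ∧ ∀ q ∈ p.1, ∃ n : ℕ, n ∈ A ∧ (n : ℚ) = k * q}
  have hne : Nonempty {S : Finset ℚ // ∀ q ∈ S, 0 < q} := ⟨⟨∅, by simp⟩⟩
  have hdir : Directed (· ≥ ·) (fun p => 𝓟 (E p)) := by
    rintro ⟨S₁, h₁⟩ ⟨S₂, h₂⟩
    refine ⟨⟨S₁ ∪ S₂, ?_⟩, ?_, ?_⟩
    · intro q hq
      rcases Finset.mem_union.1 hq with h | h
      · exact h₁ q h
      · exact h₂ q h
    · apply principal_mono.2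
      rintro k ⟨hk, hkS⟩
      exact ⟨hk, fun q hq => hkS q (Finset.mem_union_left _ hq)⟩
    · apply principal_mono.2
      rintro k ⟨hk, hkS⟩
      exact ⟨hk, fun q hq => hkS q (Finset.mem_union_right _ hq)⟩
  have hbot : NeBot (⨅ p, 𝓟 (E p)) := by
    apply iInf_neBot_of_directed' hdir
    rintro ⟨S, hS⟩
    rw [principal_neBot_iff]
    exact Bohr.exists_dilate hA S hS
  obtain ⟨𝒰, h𝒰⟩ : ∃ 𝒰 : Ultrafilter ℕ, (𝒰 : Filter ℕ) ≤ ⨅ p, 𝓟 (E p) :=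
    ⟨Ultrafilter.of _, Ultrafilter.of_le _⟩
  have hev : ∀ (S : Finset ℚ) (_ : ∀ q ∈ S, 0 < q),
      ∀ᶠ k : ℕ in (𝒰 : Filter ℕ), 0 < k ∧ ∀ q ∈ S, ∃ n : ℕ, n ∈ A ∧ (n : ℚ) = k * q := by
    intro S hS
    have h1 : (𝒰 : Filter ℕ) ≤ 𝓟 (E ⟨S, hS⟩) := h𝒰.trans (iInf_le _ _)
    exact le_principal_iff.1 h1
  have hev0 : ∀ (S : Finset ℚ) (_ : ∀ q ∈ S, 0 < q),
      ∀ᶠ k : ℕ in (𝒰 : Filter ℕ), 0 < k ∧ ∀ q ∈ S, ∃ n : ℕ, 0 < n ∧ (n : ℚ) = k * q := by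
    intro S hS
    filter_upwards [hev S hS] with k hk
    refine ⟨hk.1, fun q hq => ?_⟩
    obtain ⟨n, -, hn⟩ := hk.2 q hq
    have hk0 : (0 : ℚ) < k := by exact_mod_cast hk.1
    have hq0 := hS q hq
    have hn0 : (0 : ℚ) < n := by rw [hn]; positivity
    exact ⟨n, by exact_mod_cast hn0, hn⟩
  -- the limits
  have hsex : ∀ i : Fin p, ∃ l : T, Tendsto (fun k : ℕ => f k i) (𝒰 : Filter ℕ) (𝓝 l) := by
    intro i
    exact ⟨_, Ultrafilter.le_nhds_lim (𝒰.map (fun k : ℕ => f k i))⟩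
  choose s hs using hsex
  have hLex : ∀ (c : ℕ × Fin q) (t : ℚ), ∃ l : T,
      Tendsto (fun k : ℕ => φ (c.1 * ⌊(k : ℚ) * t⌋₊) c.2) (𝒰 : Filter ℕ) (𝓝 l) := by
    intro c t
    exact ⟨_, Ultrafilter.le_nhds_lim (𝒰.map (fun k : ℕ => φ (c.1 * ⌊(k : ℚ) * t⌋₊) c.2))⟩
  choose L hL using hLex
  have hFex : ∀ i : Fin p, ∃ F : PQ →+ T, ∀ (n : ℕ) (h : 0 < (n : ℚ)), F (pq n h) = f n i := by
    intro i
    refine hRF (fun n => f n i) ?_
    intro m n hm hn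
    have := congrFun (hf m n hm hn) i
    simpa using this
  choose F hF using hFex
  -- the good members of `M`
  obtain ⟨M', hM'⟩ : ∃ M' : Finset ℕ, ∀ m, m ∈ M' ↔
      m ∈ M ∧ ∀ i, ‖f m i + s i - f n₀ i‖ < r / 4 :=
    ⟨M.filter (fun m => ∀ i, ‖f m i + s i - f n₀ i‖ < r / 4), fun m => Finset.mem_filter⟩
  let e := Fintype.equivFin (M' × Fin q)
  have hLQ : ∀ c, LQ0 (fun y : PQ => ∀ i, ‖F i y‖ < r / 16)
      ((fun (c : Fin (Fintype.card (M' × Fin q))) (y : PQ) =>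
        L (((e.symm c).1 : ℕ), (e.symm c).2) (vl y)) c) := by
    intro c
    have hm := (hM' _).1 (e.symm c).1.2
    exact hLI p f F n₀ r (fun n => φ n (e.symm c).2) 𝒰 s ((e.symm c).1 : ℕ)
      (L (((e.symm c).1 : ℕ), (e.symm c).2)) hf hF hn₀ hr (hφ _) hev0 hs (hMpos _ hm.1) hm.2
      (hL _)
  obtain ⟨a, b, g, ⟨X, Y, Z, hX, hY, hZ, hXYZ, ha, hb⟩, hFab, hab⟩ :=
    hLOC PQ p F Quad.Tr twrec_tr (Fintype.card (M' × Fin q)) _ (r / 16) (by positivity) hLQ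
      ε' hε'
  have hab' : ∀ m ∈ M', ∀ j, ‖L (m, j) (vl (g + a)) - L (m, j) (vl g)‖ < ε' ∧
      ‖L (m, j) (vl (g + b)) - L (m, j) (vl g)‖ < ε' := by
    intro m hm j
    have h1 := hab (e (⟨m, hm⟩, j))
    simpa using h1
  obtain ⟨w, hw⟩ : ∃ w : ℚ, w = vl g := ⟨_, rfl⟩
  have hwpos : 0 < w := by rw [hw]; exact vl_pos g
  obtain ⟨u, hu⟩ : ∃ u : ℚ, u = vl (g + a) := ⟨_, rfl⟩
  obtain ⟨v, hv⟩ : ∃ v : ℚ, v = vl (g + b) := ⟨_, rfl⟩
  have hupos : 0 < u := by rw [hu]; exact vl_pos _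
  have hvpos : 0 < v := by rw [hv]; exact vl_pos _
  have hu2 : u = w * (X / Z) := by rw [hu, vl_add, ha, hw]
  have hv2 : v = w * (Y / Z) := by rw [hv, vl_add, hb, hw]
  have huvw : u ^ 2 + v ^ 2 = w ^ 2 := by
    rw [hu2, hv2]
    field_simp
    rw [← hXYZ]
  have hclose : ∀ t : ℚ, ∀ᶠ k : ℕ in (𝒰 : Filter ℕ), ∀ c : M × Fin q,
      ‖φ ((c.1 : ℕ) * ⌊(k : ℚ) * t⌋₊) c.2 - L ((c.1 : ℕ), c.2) t‖ < ε' := by
    intro t
    rw [eventually_all]
    intro c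
    have h1 := (hL ((c.1 : ℕ), c.2) t).eventually
      (Metric.ball_mem_nhds (L ((c.1 : ℕ), c.2) t) hε')
    filter_upwards [h1] with k hk
    rwa [dist_eq_norm] at hk
  have hclosef : ∀ᶠ k : ℕ in (𝒰 : Filter ℕ), ∀ i, ‖f k i - s i‖ < ε' := by
    rw [eventually_all]
    intro i
    have h1 := (hs i).eventually (Metric.ball_mem_nhds (s i) hε')
    filter_upwards [h1] with k hk
    rwa [dist_eq_norm] at hk
  have hS := hev ({u, v, w} ∪ M.biUnion (fun m => {(m : ℚ) * u, (m : ℚ) * v, (m : ℚ) * w})) (by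
    intro q hq
    simp only [Finset.mem_union, Finset.mem_insert, Finset.mem_singleton, Finset.mem_biUnion] at hq
    rcases hq with (rfl | rfl | rfl) | ⟨m, hm, hq⟩
    · exact hupos
    · exact hvpos
    · exact hwpos
    · have hm' : (0 : ℚ) < m := by exact_mod_cast hMpos m hm
      rcases hq with rfl | rfl | rfl <;> positivity)
  obtain ⟨k, ⟨hk0, hkS⟩, hkf, hku, hkv, hkw⟩ :=
    (hS.and (hclosef.and ((hclose u).and ((hclose v).and (hclose w))))).exists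
  have hk0' : (0 : ℚ) < k := by exact_mod_cast hk0
  have hfl : ∀ q : ℚ, 0 < q → (∃ n : ℕ, n ∈ A ∧ (n : ℚ) = k * q) → ∃ n : ℕ, 0 < n ∧
      (n : ℚ) = k * q ∧ ⌊(k : ℚ) * q⌋₊ = n := by
    rintro q hq ⟨n, -, hn⟩
    have hn0 : (0 : ℚ) < n := by rw [hn]; positivity
    exact ⟨n, by exact_mod_cast hn0, hn, by rw [← hn, Nat.floor_natCast]⟩
  obtain ⟨x, hx0, hx, hxf⟩ := hfl u hupos (hkS _ (by simp))
  obtain ⟨y, hy0, hy, hyf⟩ := hfl v hvpos (hkS _ (by simp))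
  obtain ⟨z, hz0, hz, hzf⟩ := hfl w hwpos (hkS _ (by simp))
  rw [hxf] at hku
  rw [hyf] at hkv
  rw [hzf] at hkw
  obtain ⟨m, hm, hmzf, hmz⟩ := hM z hz0
  have hm0 := hMpos m hm
  have hmem : ∀ q ∈ ({(m : ℚ) * u, (m : ℚ) * v, (m : ℚ) * w} : Finset ℚ),
      ∃ n : ℕ, n ∈ A ∧ (n : ℚ) = k * q := by
    intro q hq
    apply hkS
    exact Finset.mem_union_right _ (Finset.mem_biUnion.2 ⟨m, hm, hq⟩)
  have hxA : m * x ∈ A := by
    obtain ⟨n, hnA, hn⟩ := hmem (m * u) (by simp)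
    have : n = m * x := by
      have : (n : ℚ) = m * x := by rw [hn, hx]; ring
      exact_mod_cast this
    rwa [← this]
  have hyA : m * y ∈ A := by
    obtain ⟨n, hnA, hn⟩ := hmem (m * v) (by simp)
    have : n = m * y := by
      have : (n : ℚ) = m * y := by rw [hn, hy]; ring
      exact_mod_cast this
    rwa [← this]
  have hzA : m * z ∈ A := by
    obtain ⟨n, hnA, hn⟩ := hmem (m * w) (by simp)
    have : n = m * z := by
      have : (n : ℚ) = m * z := by rw [hn, hz]; ring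
      exact_mod_cast this
    rwa [← this]
  have hpt : x ^ 2 + y ^ 2 = z ^ 2 := by
    have : (x : ℚ) ^ 2 + (y : ℚ) ^ 2 = (z : ℚ) ^ 2 := by
      rw [hx, hy, hz]
      calc ((k : ℚ) * u) ^ 2 + (k * v) ^ 2 = k ^ 2 * (u ^ 2 + v ^ 2) := by ring
        _ = k ^ 2 * w ^ 2 := by rw [huvw]
        _ = (k * w) ^ 2 := by ring
    exact_mod_cast this
  -- values of `f`
  have vz : ∀ i, f (m * z) i = f m i + (f k i + F i g) := by
    intro i
    have h1 := congrFun (hf m z hm0 hz0) i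
    rw [Pi.add_apply] at h1
    rw [h1, val_eq hF hk0 hz0 (by rw [hz, hw]) i]
  have vx : ∀ i, f (m * x) i = f m i + (f k i + (F i g + F i a)) := by
    intro i
    have h1 := congrFun (hf m x hm0 hx0) i
    rw [Pi.add_apply] at h1
    rw [h1, val_eq hF hk0 hx0 (by rw [hx, hu]) i, map_add]
  have vy : ∀ i, f (m * y) i = f m i + (f k i + (F i g + F i b)) := by
    intro i
    have h1 := congrFun (hf m y hm0 hy0) i
    rw [Pi.add_apply] at h1
    rw [h1, val_eq hF hk0 hy0 (by rw [hy, hv]) i, map_add]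
  -- `m` is good
  have hmM' : m ∈ M' := by
    rw [hM']
    refine ⟨hm, fun i => ?_⟩
    have h1 : f m i + s i - f n₀ i = (f (m * z) i - f n₀ i) + (-(f k i - s i) + -(F i g)) := by
      rw [vz i]
      abel
    have h2 : ‖(f (m * z) i - f n₀ i) + (-(f k i - s i) + -(F i g))‖ < ε₁ + (ε' + ε') := by
      refine norm_add_lt (hmzf i) (norm_add_lt ?_ ?_)
      · rw [norm_neg]; exact hkf i
      · rw [norm_neg]; exact (hFab i).2.2
    rw [h1]
    linarith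
  refine ⟨m * x, m * y, m * z, Nat.mul_pos hm0 hx0, Nat.mul_pos hm0 hy0, Nat.mul_pos hm0 hz0, ?_,
    hxA, hyA, hzA, ?_, ?_⟩
  · calc (m * x) ^ 2 + (m * y) ^ 2 = m ^ 2 * (x ^ 2 + y ^ 2) := by ring
      _ = (m * z) ^ 2 := by rw [hpt]; ring
  · intro i
    refine ⟨?_, ?_, ?_⟩
    · have h1 : f (m * x) i - f n₀ i = (f (m * z) i - f n₀ i) + F i a := by
        rw [vx i, vz i]
        abel
      rw [h1]
      have := norm_add_lt (hmzf i) (hFab i).1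
      linarith
    · have h1 : f (m * y) i - f n₀ i = (f (m * z) i - f n₀ i) + F i b := by
        rw [vy i, vz i]
        abel
      rw [h1]
      have := norm_add_lt (hmzf i) (hFab i).2.1
      linarith
    · have := hmzf i
      linarith
  · intro j
    have h0 := hab' m hmM' j
    rw [← hu, ← hv, ← hw] at h0
    have h3 := hkw (⟨m, hm⟩, j)
    have h4 := hmz j
    simp only at h3
    refine ⟨?_, ?_, ?_⟩
    · have h1 := hku (⟨m, hm⟩, j)
      simp only at h1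
      have he : φ (m * x) j - φ n₀ j = (φ (m * x) j - L (m, j) u) +
          ((L (m, j) u - L (m, j) w) + (-(φ (m * z) j - L (m, j) w) +
            (φ (m * z) j - φ n₀ j))) := by abel
      rw [he]
      have h5 := norm_add_lt h1 (norm_add_lt h0.1 (norm_add_lt
        (show ‖-(φ (m * z) j - L (m, j) w)‖ < ε' by rw [norm_neg]; exact h3) h4))
      linarith
    · have h1 := hkv (⟨m, hm⟩, j)
      simp only at h1
      have he : φ (m * y) j - φ n₀ j = (φ (m * y) j - L (m, j) v) +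
          ((L (m, j) v - L (m, j) w) + (-(φ (m * z) j - L (m, j) w) +
            (φ (m * z) j - φ n₀ j))) := by abel
      rw [he]
      have h5 := norm_add_lt h1 (norm_add_lt h0.2 (norm_add_lt
        (show ‖-(φ (m * z) j - L (m, j) w)‖ < ε' by rw [norm_neg]; exact h3) h4))
      linarith
    · linarith

end Pool.Agent.Work.MP_0f91f8_co.Nil
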