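import Pool.Agent.Work.MP_0f91f8_co.Nil.Stmts

/-!
Item RATF of block [0f91f8 NQ]: a completely additive function on the positive integers with
values in the circle extends to a homomorphism on the positive rationals.
-/

namespace Pool.Agent.Work.MP_0f91f8_co.Nil

open Quad

namespace I_RATF

/-- the value at a positive rational -/
def val (f : ℕ → T) (q : ℚ) : T := f q.num.toNat - f q.den

lemma num_pos {q : ℚ} (hq : 0 < q) : 0 < q.num.toNat := by
  have := Rat.num_pos.2 hq
  omega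

lemma cross {q : ℚ} (hq : 0 < q) {a b : ℕ} (hb : 0 < b) (h : q = (a : ℚ) / b) :
    a * q.den = q.num.toNat * b := by
  have hb' : (b : ℚ) ≠ 0 := by exact_mod_cast hb.ne'
  have hd : (q.den : ℚ) ≠ 0 := by exact_mod_cast q.den_pos.ne'
  have h1 : (q.num : ℚ) / q.den = (a : ℚ) / b := by
    rw [Rat.num_div_den]
    exact h
  rw [div_eq_div_iff hd hb'] at h1
  have h2 : ((q.num.toNat : ℤ)) = q.num := Int.toNat_of_nonneg (Rat.num_pos.2 hq).le
  have h3 : (q.num : ℚ) = ((q.num.toNat : ℕ) : ℚ) := by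
    rw [← h2]
    push_cast
    rfl
  rw [h3] at h1
  have h4 : (((q.num.toNat * b : ℕ)) : ℚ) = ((a * q.den : ℕ) : ℚ) := by
    push_cast
    exact h1
  exact_mod_cast h4.symm

lemma val_eq {f : ℕ → T} (hf : ∀ m n : ℕ, 0 < m → 0 < n → f (m * n) = f m + f n) {q : ℚ}
    (hq : 0 < q) {a b : ℕ} (ha : 0 < a) (hb : 0 < b) (h : q = (a : ℚ) / b) :
    val f q = f a - f b := by
  have h1 := cross hq hb h
  have h2 := congrArg f h1
  rw [hf a q.den ha q.den_pos, hf _ b (num_pos hq) hb] at h2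
  unfold val
  rw [sub_eq_sub_iff_add_eq_add]
  exact h2.symm

lemma eq_div {q : ℚ} (hq : 0 < q) : q = (q.num.toNat : ℚ) / (q.den : ℚ) := by
  have h2 : ((q.num.toNat : ℤ)) = q.num := Int.toNat_of_nonneg (Rat.num_pos.2 hq).le
  have h3 : (q.num : ℚ) = ((q.num.toNat : ℕ) : ℚ) := by
    rw [← h2]
    push_cast
    rfl
  rw [← h3, Rat.num_div_den]

lemma val_mul {f : ℕ → T} (hf : ∀ m n : ℕ, 0 < m → 0 < n → f (m * n) = f m + f n) {p q : ℚ}
    (hp : 0 < p) (hq : 0 < q) : val f (p * q) = val f p + val f q := by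
  have h1 : p * q = ((p.num.toNat * q.num.toNat : ℕ) : ℚ) / ((p.den * q.den : ℕ) : ℚ) := by
    push_cast
    rw [mul_div_mul_comm, ← eq_div hp, ← eq_div hq]
  rw [val_eq hf (mul_pos hp hq) (Nat.mul_pos (num_pos hp) (num_pos hq))
    (Nat.mul_pos p.den_pos q.den_pos) h1, hf _ _ (num_pos hp) (num_pos hq),
    hf _ _ p.den_pos q.den_pos]
  unfold val
  abel

end I_RATF

open I_RATF in
theorem RATF_pf : RATF := by
  intro f hf
  refine ⟨AddMonoidHom.mk' (fun x : PQ => val f (vl x)) ?_, ?_⟩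
  · intro x y
    rw [vl_add]
    exact val_mul hf (vl_pos x) (vl_pos y)
  · intro n h
    have hn : 0 < n := by exact_mod_cast h
    show val f (vl (pq n h)) = f n
    rw [vl_pq, val_eq hf h hn (Nat.one_pos) (by simp)]
    have h1 : f 1 = 0 := by
      have := hf 1 1 Nat.one_pos Nat.one_pos
      rw [mul_one] at this
      simpa using this
    rw [h1, sub_zero]

end Pool.Agent.Work.MP_0f91f8_co.Nil
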