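import Pool.Agent.Work.MP_0f91f8_co.Nil.Stmts

/-!
Block [0f91f8 NQ], item REDUCE: finitely many characters, independent ones and torsion ones.
-/

namespace Pool.Agent.Work.MP_0f91f8_co.Nil

namespace I_REDUCE

/-- structure of finitely generated abelian groups, in coordinates -/
lemma struct (A : Type) [AddCommGroup A] [AddGroup.FG A] :
    ∃ (d : ℕ) (c : A →+ (Fin d → ℤ)) (θ : Fin d → A) (τ : A →+ A) (N : ℕ), 0 < N ∧
      (∀ a, N • τ a = 0) ∧ (∀ i j, c (θ i) j = if i = j then 1 else 0) ∧
      (∀ a, a = ∑ i, c a i • θ i + τ a) := by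
  obtain ⟨d, ι, hι, p, hp, e, ⟨E⟩⟩ := AddCommGroup.equiv_free_prod_directSum_zmod A
  let c : A →+ (Fin d → ℤ) :=
    { toFun := fun a i => (E a).1 i
      map_zero' := by
        funext i
        simp
      map_add' := by
        intro a b
        funext i
        simp }
  let τ : A →+ A :=
    { toFun := fun a => E.symm (0, (E a).2)
      map_zero' := by
        have h : ((0 : Fin d →₀ ℤ), (E 0).2) = 0 := by
          rw [map_zero]
          rfl
        rw [h, map_zero]
      map_add' := by
        intro a b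
        rw [← map_add]
        congr 1
        rw [map_add, Prod.snd_add, Prod.mk_add_mk, add_zero] }
  refine ⟨d, c, fun i => E.symm (Finsupp.single i 1, 0), τ, ∏ i, p i ^ e i, ?_, ?_, ?_, ?_⟩
  · exact Finset.prod_pos fun i _ => pow_pos (hp i).pos _
  · intro a
    have h2 : (∏ i, p i ^ e i) • (E a).2 = 0 := by
      refine DirectSum.ext fun i => ?_
      have h3 : ((∏ i, p i ^ e i) • (E a).2) i = (∏ i, p i ^ e i) • ((E a).2 i) := rfl
      rw [h3, nsmul_eq_mul]
      have h4 : (((∏ i, p i ^ e i : ℕ)) : ZMod (p i ^ e i)) = 0 := by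
        rw [ZMod.natCast_eq_zero_iff]
        exact Finset.dvd_prod_of_mem _ (Finset.mem_univ i)
      rw [h4, zero_mul]
      rfl
    change (∏ i, p i ^ e i) • E.symm (0, (E a).2) = 0
    rw [← map_nsmul, Prod.smul_mk, h2, smul_zero]
    exact map_zero _
  · intro i j
    change (E (E.symm (Finsupp.single i 1, 0))).1 j = _
    rw [AddEquiv.apply_symm_apply, Finsupp.single_apply]
  · intro a
    apply E.injective
    have h1 : E (∑ i, c a i • E.symm (Finsupp.single i 1, 0) + τ a) =
        ∑ i, (E a).1 i • ((Finsupp.single i 1, 0) :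
          (Fin d →₀ ℤ) × DirectSum ι fun i => ZMod (p i ^ e i)) + (0, (E a).2) := by
      rw [map_add, map_sum]
      congr 1
      · refine Finset.sum_congr rfl fun i _ => ?_
        rw [map_zsmul, AddEquiv.apply_symm_apply]
        rfl
      · change E (E.symm (0, (E a).2)) = _
        rw [AddEquiv.apply_symm_apply]
    rw [h1]
    refine Prod.ext ?_ ?_
    · rw [Prod.fst_add, Prod.fst_sum, add_zero]
      have h2 : ∀ i, ((E a).1 i • ((Finsupp.single i 1, 0) :
          (Fin d →₀ ℤ) × DirectSum ι fun i => ZMod (p i ^ e i))).1 =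
          Finsupp.single i ((E a).1 i) := by
        intro i
        change (E a).1 i • Finsupp.single i (1 : ℤ) = _
        rw [Finsupp.smul_single, smul_eq_mul, mul_one]
      rw [Finset.sum_congr rfl fun i _ => h2 i, Finsupp.univ_sum_single]
    · rw [Prod.snd_add, Prod.snd_sum]
      have h2 : ∀ i, ((E a).1 i • ((Finsupp.single i 1, 0) :
          (Fin d →₀ ℤ) × DirectSum ι fun i => ZMod (p i ^ e i))).2 = 0 := by
        intro i
        change (E a).1 i • (0 : DirectSum ι fun i => ZMod (p i ^ e i)) = _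
        rw [smul_zero]
      rw [Finset.sum_congr rfl fun i _ => h2 i, Finset.sum_const_zero, zero_add]

end I_REDUCE

theorem REDUCE_pf : REDUCE := by
  intro G _ p f
  let Λ : AddSubgroup (G →+ T) := AddSubgroup.closure (Set.range f)
  have hmem : ∀ j, f j ∈ Λ := fun j => AddSubgroup.subset_closure ⟨j, rfl⟩
  have hfg : AddGroup.FG Λ := by
    rw [AddGroup.fg_iff_addSubgroup_fg]
    exact ⟨(Set.finite_range f).toFinset, by rw [Set.Finite.coe_toFinset]⟩
  obtain ⟨d, c, θ, τ, N, hN, hτ, hcθ, hsum⟩ := I_REDUCE.struct Λ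
  let F : Fin p → Λ := fun j => ⟨f j, hmem j⟩
  refine ⟨d, fun i => (θ i : G →+ T), fun j => (τ (F j) : G →+ T), N,
    1 + ∑ j, ∑ i, |(c (F j) i : ℝ)|, hN, ?_, ?_, ?_, ?_⟩
  · have : 0 ≤ ∑ j, ∑ i, |(c (F j) i : ℝ)| :=
      Finset.sum_nonneg fun j _ => Finset.sum_nonneg fun i _ => abs_nonneg _
    linarith
  · intro j
    have h := congrArg (fun z : Λ => (z : G →+ T)) (hτ (F j))
    simpa using h
  · intro k hk
    have hL : N • ∑ i, k i • θ i = 0 := by
      apply Subtype.ext
      refine AddMonoidHom.ext fun g => ?_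
      have h := hk g
      have h2 : ((N • ∑ i, k i • θ i : Λ) : G →+ T) = N • ∑ i, k i • (θ i : G →+ T) := by
        push_cast
        rfl
      rw [h2]
      have h3 : (N • ∑ i, k i • (θ i : G →+ T)) g = N • ∑ i, k i • (θ i : G →+ T) g := by
        rw [AddMonoidHom.nsmul_apply, AddMonoidHom.finsetSum_apply]
        rfl
      rw [h3, h]
      rfl
    funext j
    have h4 := congrFun (congrArg c hL) j
    rw [map_nsmul, map_sum, map_zero] at h4
    have h5 : (N • ∑ i, c (k i • θ i)) j = (N : ℤ) * k j := by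
      rw [Pi.smul_apply, Finset.sum_apply, nsmul_eq_mul]
      congr 1
      have h6 : ∀ i, c (k i • θ i) j = if i = j then k i else 0 := by
        intro i
        rw [map_zsmul, Pi.smul_apply, hcθ i j, smul_eq_mul, mul_ite, mul_one, mul_zero]
      rw [Finset.sum_congr rfl fun i _ => h6 i, Finset.sum_ite_eq' Finset.univ j k]
      simp
    rw [h5] at h4
    have hN' : (N : ℤ) ≠ 0 := by exact_mod_cast hN.ne'
    have := mul_eq_zero.mp h4
    rcases this with h | h
    · exact absurd h hN'
    · exact h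
  · intro δ hδ g hg hθ j
    have h1 : f j = ∑ i, c (F j) i • (θ i : G →+ T) + (τ (F j) : G →+ T) := by
      have h := congrArg (fun z : Λ => (z : G →+ T)) (hsum (F j))
      have h2 : ((∑ i, c (F j) i • θ i + τ (F j) : Λ) : G →+ T) =
          ∑ i, c (F j) i • (θ i : G →+ T) + (τ (F j) : G →+ T) := by
        push_cast
        rfl
      rw [← h2]
      exact h
    have h3 : f j g = ∑ i, c (F j) i • (θ i : G →+ T) g := by
      rw [h1, AddMonoidHom.add_apply, AddMonoidHom.finsetSum_apply, hg j, add_zero]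
      rfl
    rw [h3]
    have h4 : ‖∑ i, c (F j) i • (θ i : G →+ T) g‖ ≤ ∑ i, |(c (F j) i : ℝ)| * δ := by
      refine (norm_sum_le _ _).trans (Finset.sum_le_sum fun i _ => ?_)
      refine (norm_zsmul_le _ _).trans ?_
      rw [Int.norm_eq_abs]
      exact mul_le_mul_of_nonneg_left (hθ i).le (abs_nonneg _)
    refine h4.trans_lt ?_
    rw [← Finset.sum_mul]
    have h5 : ∑ i, |(c (F j) i : ℝ)| ≤ ∑ j, ∑ i, |(c (F j) i : ℝ)| :=
      Finset.single_le_sum (f := fun j => ∑ i, |(c (F j) i : ℝ)|)
        (fun j _ => Finset.sum_nonneg fun i _ => abs_nonneg _) (Finset.mem_univ j)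
    nlinarith

end Pool.Agent.Work.MP_0f91f8_co.Nil
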