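import Pool.Agent.Work.MP_0f91f8_co.Nil.Stmts

/-!
Item SPLIT of block [0f91f8 NQ]: a symmetric biadditive form with values in the circle is the form
of a quadratic map (the cocycle splits because the circle is divisible).
-/

namespace Pool.Agent.Work.MP_0f91f8_co.Nil

namespace I_SPLIT

/-- the extension of `H` by the circle defined by a biadditive form -/
structure E {H : Type} [AddCommGroup H] (B : H →+ H →+ T) where
  /-- first coordinate -/
  fst : H
  /-- second coordinate -/
  snd : T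

variable {H : Type} [AddCommGroup H] {B : H →+ H →+ T}

lemma E_ext {p q : E B} (h1 : p.fst = q.fst) (h2 : p.snd = q.snd) : p = q := by
  cases p
  cases q
  simp only at h1 h2
  rw [h1, h2]

/-- addition in the extension -/
def eadd (p q : E B) : E B := ⟨p.fst + q.fst, p.snd + q.snd + B p.fst q.fst⟩

/-- negation in the extension -/
def eneg (p : E B) : E B := ⟨-p.fst, -p.snd + B p.fst p.fst⟩

lemma eadd_assoc (p q r : E B) : eadd (eadd p q) r = eadd p (eadd q r) := by
  apply E_ext
  · exact add_assoc _ _ _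
  · simp only [eadd, map_add, AddMonoidHom.add_apply]
    abel

lemma ezero_add (p : E B) : eadd ⟨0, 0⟩ p = p := by
  apply E_ext
  · exact zero_add _
  · simp only [eadd, map_zero, AddMonoidHom.zero_apply]
    abel

lemma eneg_add (p : E B) : eadd (eneg p) p = ⟨0, 0⟩ := by
  apply E_ext
  · exact neg_add_cancel _
  · simp only [eadd, eneg, map_neg, AddMonoidHom.neg_apply]
    abel

lemma eadd_comm (hB : ∀ g h, B g h = B h g) (p q : E B) : eadd p q = eadd q p := by
  apply E_ext
  · exact add_comm _ _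
  · simp only [eadd]
    rw [hB p.fst q.fst]
    abel

lemma eadd_zero (hB : ∀ g h, B g h = B h g) (p : E B) : eadd p ⟨0, 0⟩ = p := by
  rw [eadd_comm hB]
  exact ezero_add p

/-- the group structure of the extension -/
@[reducible] def egroup (hB : ∀ g h, B g h = B h g) : AddCommGroup (E B) :=
  letI : Zero (E B) := ⟨⟨0, 0⟩⟩
  letI : Add (E B) := ⟨eadd⟩
  letI : Neg (E B) := ⟨eneg⟩
  { add := eadd
    zero := ⟨0, 0⟩
    neg := eneg
    add_assoc := eadd_assoc
    zero_add := ezero_add
    add_zero := eadd_zero hB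
    nsmul := nsmulRec
    zsmul := zsmulRec
    neg_add_cancel := eneg_add
    add_comm := eadd_comm hB }

lemma exists_rho (hB : ∀ g h, B g h = B h g) :
    ∃ ρ : E B → T, (∀ p q, ρ (eadd p q) = ρ p + ρ q) ∧ ∀ s, ρ ⟨0, s⟩ = s := by
  let _ := egroup hB
  have hadd : ∀ p q : E B, p + q = eadd p q := fun _ _ => rfl
  let i : T →+ E B := AddMonoidHom.mk' (fun s => ⟨0, s⟩) (by
    intro a b
    rw [hadd]
    apply E_ext
    · exact (zero_add _).symm
    · simp only [eadd, map_zero]
      abel)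
  have hi : Function.Injective i := by
    intro a b hab
    exact congrArg E.snd hab
  obtain ⟨ρ, hρ⟩ := (Module.Baer.of_divisible UnitAddCircle).extension_property_addMonoidHom
    i hi (AddMonoidHom.id T)
  refine ⟨ρ, fun p q => ?_, fun s => ?_⟩
  · rw [← hadd]
    exact map_add ρ p q
  · exact DFunLike.congr_fun hρ s

end I_SPLIT

open I_SPLIT in
theorem SPLIT_pf : SPLIT := by
  intro H _ B hB
  obtain ⟨ρ, h1, h2⟩ := exists_rho hB
  refine ⟨fun g => -ρ ⟨g, 0⟩, fun g h => ?_⟩
  have h3 := h1 ⟨g, 0⟩ ⟨h, 0⟩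
  have h4 := h1 ⟨g + h, 0⟩ ⟨0, B g h⟩
  rw [h2] at h4
  have h5 : eadd (B := B) ⟨g, 0⟩ ⟨h, 0⟩ = eadd ⟨g + h, 0⟩ ⟨0, B g h⟩ := by
    apply E_ext
    · exact (add_zero _).symm
    · simp only [eadd, map_zero]
      abel
  rw [h5, h4] at h3
  have h6 : ρ ⟨g + h, 0⟩ = ρ ⟨g, 0⟩ + ρ ⟨h, 0⟩ - B g h := by
    rw [← h3]
    abel
  simp only
  rw [h6]
  abel

end Pool.Agent.Work.MP_0f91f8_co.Nil
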