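import Pool.Agent.Work.MP_0f91f8_co.Nil.Stmts

/-!
Return times of locally quadratic maps on a multiplicative Bohr set are syndetic.
-/

set_option autoImplicit false

open Filter Topology

namespace Pool.Agent.Work.MP_0f91f8_co.Nil

open Quad Bohr

namespace I_SYND

/-- the joint map -/
def P {p q : ℕ} (f : ℕ → Fin p → T) (φ : ℕ → Fin q → T) (n : ℕ) : Fin p ⊕ Fin q → T :=
  Sum.elim (f n) (φ n)

lemma main {p q : ℕ} {f : ℕ → Fin p → T} {φ : ℕ → Fin q → T} {n₀ : ℕ} {r : ℝ}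
    (hf : AddF f) (hn₀ : 0 < n₀) (hr : 0 < r) (hφ : ∀ j, LQN f n₀ r (fun n => φ n j))
    (ε : ℝ) (hε : 0 < ε) :
    ∃ M : Finset ℕ, (∀ m ∈ M, 0 < m) ∧ ∀ n, 0 < n → ∃ m ∈ M, ∀ i,
      ‖P f φ (m * n) i - P f φ n₀ i‖ < ε := by
  classical
  by_contra hcon
  push Not at hcon
  have hstep : ∀ M : {M : Finset ℕ // ∀ m ∈ M, 0 < m}, ∃ n, 0 < n ∧ ∀ m ∈ M.1,
      ∃ i, ε ≤ ‖P f φ (m * n) i - P f φ n₀ i‖ := fun M => hcon M.1 M.2
  choose nxt hnxt using hstep
  obtain ⟨st, hst0, hst⟩ : ∃ st : ℕ → {M : Finset ℕ // ∀ m ∈ M, 0 < m},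
      st 0 = ⟨{n₀}, by simpa using hn₀⟩ ∧
      ∀ k, (st (k + 1)).1 = (st k).1 ∪ (st k).1.image (fun m => m * nxt (st k)) := by
    let g : {M : Finset ℕ // ∀ m ∈ M, 0 < m} → {M : Finset ℕ // ∀ m ∈ M, 0 < m} := fun M =>
      ⟨M.1 ∪ M.1.image (fun m => m * nxt M), by
        intro q hq
        rcases Finset.mem_union.1 hq with h | h
        · exact M.2 q h
        · obtain ⟨q', hq', rfl⟩ := Finset.mem_image.1 h
          exact Nat.mul_pos (M.2 q' hq') (hnxt M).1⟩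
    exact ⟨fun k => Nat.rec ⟨{n₀}, by simpa using hn₀⟩ (fun _ M => g M) k, rfl, fun _ => rfl⟩
  obtain ⟨a, ha⟩ : ∃ a : Stream' ℕ, a = fun k => nxt (st k) := ⟨_, rfl⟩
  have hbad : ∀ (s : Stream' ℕ) (m : ℕ), m ∈ Hindman.FP s → ∀ k, s = a.drop k → ∀ g ∈ (st k).1,
      0 < m ∧ ∃ i, ε ≤ ‖P f φ (g * m) i - P f φ n₀ i‖ := by
    intro s m hm
    induction hm with
    | head' s =>
      intro k hk g hg
      have h1 : s.head = nxt (st k) := by
        rw [hk, Stream'.head_drop, ha]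
        rfl
      rw [h1]
      exact ⟨(hnxt (st k)).1, (hnxt (st k)).2 g hg⟩
    | tail' s m hm ih =>
      intro k hk g hg
      refine ih (k + 1) ?_ g ?_
      · rw [hk, Stream'.tail_eq_drop, Stream'.drop_drop]
      · rw [hst]
        exact Finset.mem_union_left _ hg
    | cons' s m hm ih =>
      intro k hk g hg
      have h1 : s.head = nxt (st k) := by
        rw [hk, Stream'.head_drop, ha]
        rfl
      have h2 := ih (k + 1) (by rw [hk, Stream'.tail_eq_drop, Stream'.drop_drop])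
        (g * nxt (st k)) (by
          rw [hst]
          exact Finset.mem_union_right _ (Finset.mem_image_of_mem _ hg))
      rw [h1, ← mul_assoc]
      exact ⟨Nat.mul_pos (hnxt (st k)).1 h2.1, h2.2⟩
  have hbad' : ∀ m ∈ Hindman.FP a, 0 < m ∧ ∃ i, ε ≤ ‖P f φ (n₀ * m) i - P f φ n₀ i‖ := by
    intro m hm
    apply hbad a m hm 0 rfl
    rw [hst0]
    exact Finset.mem_singleton_self _
  -- the cells
  obtain ⟨η, hη⟩ : ∃ η : ℝ, η = min ε r / 8 := ⟨_, rfl⟩
  have hη0 : 0 < η := by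
    rw [hη]
    have := lt_min hε hr
    positivity
  have hηε : 3 * η < ε := by
    have := min_le_left ε r
    have h2 := lt_min hε hr
    rw [hη]
    linarith
  have hηr : 3 * η < r := by
    have := min_le_right ε r
    have h2 := lt_min hε hr
    rw [hη]
    linarith
  obtain ⟨V, hVdef⟩ : ∃ V : Set (Multiplicative (Fin p ⊕ Fin q → UnitAddCircle)),
      V = {v : Multiplicative (Fin p ⊕ Fin q → UnitAddCircle) |
        ∀ i, ‖(Multiplicative.toAdd v : Fin p ⊕ Fin q → UnitAddCircle) i‖ < η} := ⟨_, rfl⟩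
  have hV : V ∈ 𝓝 (1 : Multiplicative (Fin p ⊕ Fin q → UnitAddCircle)) := by
    have hopen : IsOpen V := by
      have h1 : V = ⋂ i, {v : Multiplicative (Fin p ⊕ Fin q → UnitAddCircle) |
          ‖(Multiplicative.toAdd v : Fin p ⊕ Fin q → UnitAddCircle) i‖ < η} := by
        rw [hVdef]
        ext v
        simp
      rw [h1]
      apply isOpen_iInter_of_finite
      intro i
      apply isOpen_lt _ continuous_const
      exact ((continuous_apply i).comp continuous_toAdd).norm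
    apply hopen.mem_nhds
    rw [hVdef]
    intro i
    simpa using hη0
  obtain ⟨t, χ, hχ⟩ := exists_cells V hV
  obtain ⟨c, ⟨x, rfl⟩, b, hb⟩ := Hindman.FP_partition_regular a
    (Set.range (fun x : t => {m | m ∈ Hindman.FP a ∧
      χ (Multiplicative.ofAdd (P f φ (n₀ * m))) = x})) (Set.finite_range _) (by
      intro m hm
      exact ⟨_, ⟨χ (Multiplicative.ofAdd (P f φ (n₀ * m))), rfl⟩, hm, rfl⟩)
  have hclose : ∀ x y, x ∈ Hindman.FP b → y ∈ Hindman.FP b → ∀ i,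
      ‖P f φ (n₀ * y) i - P f φ (n₀ * x) i‖ < η := by
    intro x y hx hy i
    have h1 := hχ _ _ ((hb hx).2.trans (hb hy).2.symm)
    rw [hVdef] at h1
    have h2 := h1 i
    rw [toAdd_mul, toAdd_inv, toAdd_ofAdd, toAdd_ofAdd] at h2
    simp only [Pi.add_apply, Pi.neg_apply] at h2
    rwa [neg_add_eq_sub] at h2
  have m1 : b.head ∈ Hindman.FP b := Hindman.FP.head _
  have m2 : b.tail.head ∈ Hindman.FP b := Hindman.FP.tail _ _ (Hindman.FP.head _)
  have m3 : b.tail.tail.head ∈ Hindman.FP b :=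
    Hindman.FP.tail _ _ (Hindman.FP.tail _ _ (Hindman.FP.head _))
  have m12 : b.head * b.tail.head ∈ Hindman.FP b := Hindman.FP.cons _ _ (Hindman.FP.head _)
  have m13 : b.head * b.tail.tail.head ∈ Hindman.FP b :=
    Hindman.FP.cons _ _ (Hindman.FP.tail _ _ (Hindman.FP.head _))
  have m23 : b.tail.head * b.tail.tail.head ∈ Hindman.FP b :=
    Hindman.FP.tail _ _ (Hindman.FP.cons _ _ (Hindman.FP.head _))
  have m123 : b.head * (b.tail.head * b.tail.tail.head) ∈ Hindman.FP b :=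
    Hindman.FP.cons _ _ (Hindman.FP.cons _ _ (Hindman.FP.head _))
  have p1 := (hbad' _ (hb m1).1).1
  have p2 := (hbad' _ (hb m2).1).1
  have p3 := (hbad' _ (hb m3).1).1
  obtain ⟨i, hi⟩ := (hbad' _ (hb m1).1).2
  generalize b.head = x1 at *
  generalize b.tail.head = x2 at *
  generalize b.tail.tail.head = x3 at *
  have f1 : ∀ i, ‖f x1 i‖ < η := by
    intro i
    have h := hclose _ _ m2 m12 (Sum.inl i)
    have e : n₀ * (x1 * x2) = n₀ * x2 * x1 := by ring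
    simp only [P, Sum.elim_inl] at h
    rw [e, hf _ _ (Nat.mul_pos hn₀ p2) p1, Pi.add_apply, add_sub_cancel_left] at h
    exact h
  have f2 : ∀ i, ‖f x2 i‖ < η := by
    intro i
    have h := hclose _ _ m1 m12 (Sum.inl i)
    have e : n₀ * (x1 * x2) = n₀ * x1 * x2 := by ring
    simp only [P, Sum.elim_inl] at h
    rw [e, hf _ _ (Nat.mul_pos hn₀ p1) p2, Pi.add_apply, add_sub_cancel_left] at h
    exact h
  have f3 : ∀ i, ‖f x3 i‖ < η := by
    intro i
    have h := hclose _ _ m1 m13 (Sum.inl i)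
    have e : n₀ * (x1 * x3) = n₀ * x1 * x3 := by ring
    simp only [P, Sum.elim_inl] at h
    rw [e, hf _ _ (Nat.mul_pos hn₀ p1) p3, Pi.add_apply, add_sub_cancel_left] at h
    exact h
  have s1 : ∀ y, 0 < y → ∀ i, f (n₀ * y) i - f n₀ i = f y i := by
    intro y hy i
    rw [hf _ _ hn₀ hy, Pi.add_apply, add_sub_cancel_left]
  have d0 : Dom f n₀ r n₀ := ⟨hn₀, fun i => by rw [sub_self, norm_zero]; exact hr⟩
  have d1 : ∀ y, 0 < y → (∀ i, ‖f y i‖ < η) → Dom f n₀ r (n₀ * y) := by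
    intro y hy h
    refine ⟨Nat.mul_pos hn₀ hy, fun i => ?_⟩
    rw [s1 y hy i]
    have := h i
    linarith
  have d2 : ∀ y z, 0 < y → 0 < z → (∀ i, ‖f y i‖ < η) → (∀ i, ‖f z i‖ < η) →
      Dom f n₀ r (n₀ * y * z) := by
    intro y z hy hz h h'
    refine ⟨Nat.mul_pos (Nat.mul_pos hn₀ hy) hz, fun i => ?_⟩
    rw [mul_assoc, s1 (y * z) (Nat.mul_pos hy hz) i, hf _ _ hy hz, Pi.add_apply]
    have h1 := h i
    have h2 := h' i
    have h3 := norm_add_le (f y i) (f z i)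
    linarith
  have d3 : Dom f n₀ r (n₀ * x1 * x2 * x3) := by
    refine ⟨Nat.mul_pos (Nat.mul_pos (Nat.mul_pos hn₀ p1) p2) p3, fun i => ?_⟩
    have e : n₀ * x1 * x2 * x3 = n₀ * (x1 * x2 * x3) := by ring
    rw [e, s1 _ (Nat.mul_pos (Nat.mul_pos p1 p2) p3) i, hf _ _ (Nat.mul_pos p1 p2) p3,
      hf _ _ p1 p2, Pi.add_apply, Pi.add_apply]
    have h1 := f1 i
    have h2 := f2 i
    have h3 := f3 i
    have h4 := norm_add₃_le (a := f x1 i) (b := f x2 i) (c := f x3 i)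
    linarith
  rcases i with i | j
  · simp only [P, Sum.elim_inl] at hi
    rw [s1 _ p1 i] at hi
    have := f1 i
    linarith
  · simp only [P, Sum.elim_inr] at hi
    have hT := hφ j n₀ x1 x2 x3 d0 (d1 _ p1 f1) (d1 _ p2 f2) (d1 _ p3 f3)
      (d2 _ _ p1 p2 f1 f2) (d2 _ _ p1 p3 f1 f3) (d2 _ _ p2 p3 f2 f3) d3
    have c1 := hclose _ _ m12 m123 (Sum.inr j)
    have c2 := hclose _ _ m13 m2 (Sum.inr j)
    have c3 := hclose _ _ m23 m3 (Sum.inr j)
    simp only [P, Sum.elim_inr] at c1 c2 c3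
    have e1 : n₀ * (x1 * (x2 * x3)) = n₀ * x1 * x2 * x3 := by ring
    have e2 : n₀ * (x1 * x2) = n₀ * x1 * x2 := by ring
    have e3 : n₀ * (x1 * x3) = n₀ * x1 * x3 := by ring
    have e4 : n₀ * (x2 * x3) = n₀ * x2 * x3 := by ring
    rw [e1, e2] at c1
    rw [e3] at c2
    rw [e4] at c3
    have he : φ (n₀ * x1) j - φ n₀ j =
        -((φ (n₀ * x1 * x2 * x3) j - φ (n₀ * x1 * x2) j)
        + (φ (n₀ * x2) j - φ (n₀ * x1 * x3) j)
        + (φ (n₀ * x3) j - φ (n₀ * x2 * x3) j)) := by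
      have h2 : φ n₀ j = φ (n₀ * x1 * x2 * x3) j +
          φ (n₀ * x1) j + φ (n₀ * x2) j + φ (n₀ * x3) j -
          φ (n₀ * x1 * x2) j - φ (n₀ * x1 * x3) j -
          φ (n₀ * x2 * x3) j := by
        rw [hT]
        abel
      rw [h2]
      abel
    rw [he, norm_neg] at hi
    have h3 := norm_add₃_le
      (a := φ (n₀ * x1 * x2 * x3) j - φ (n₀ * x1 * x2) j)
      (b := φ (n₀ * x2) j - φ (n₀ * x1 * x3) j)
      (c := φ (n₀ * x3) j - φ (n₀ * x2 * x3) j)
    linarith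

end I_SYND

theorem SYND_pf : SYND := by
  intro p q f φ n₀ r hf hn₀ hr hφ ε hε
  obtain ⟨M, hM, h⟩ := I_SYND.main hf hn₀ hr hφ ε hε
  refine ⟨M, hM, fun n hn => ?_⟩
  obtain ⟨m, hm, hm2⟩ := h n hn
  exact ⟨m, hm, fun i => hm2 (Sum.inl i), fun j => hm2 (Sum.inr j)⟩

end Pool.Agent.Work.MP_0f91f8_co.Nil
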