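import Pool.Agent.Work.MP_0f91f8_co.Nil.Stmts

/-!
Block [0f91f8 NQ], item TEST: finitely many tests show that a homomorphism is not a bounded linear
form.
-/

open Filter Topology

namespace Pool.Agent.Work.MP_0f91f8_co.Nil

open Quad

namespace I_TEST

theorem cont {d : ℕ} (t : T) (y : Fin d → ℝ) :
    Continuous fun w : Fin d → ℝ => ‖t - ((lin w y : ℝ) : T)‖ := by
  have h1 : Continuous fun w : Fin d → ℝ => lin w y := by
    unfold lin
    fun_prop
  have h2 : Continuous fun r : ℝ => ((r : ℝ) : T) := AddCircle.continuous_mk' 1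
  exact (continuous_const.sub (h2.comp h1)).norm

end I_TEST

theorem TEST_pf : TEST := by
  intro H _ d x θ C h
  classical
  set Wc : Set (Fin d → ℝ) := Set.pi Set.univ fun _ => Set.Icc (-C) C with hWc
  have hmem : ∀ w : Fin d → ℝ, w ∈ Wc ↔ ∀ j, |w j| ≤ C := by
    intro w
    simp only [hWc, Set.mem_pi, Set.mem_univ, true_implies, Set.mem_Icc, abs_le]
  have hcomp : IsCompact Wc := isCompact_univ_pi fun _ => isCompact_Icc
  choose! g hg using h
  set ρ : (Fin d → ℝ) → ℝ := fun w => ‖θ (g w) - ((lin w (x (g w)) : ℝ) : T)‖ with hρ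
  have hρpos : ∀ w ∈ Wc, 0 < ρ w := by
    intro w hw
    exact norm_pos_iff.2 (sub_ne_zero.2 (hg w ((hmem w).1 hw)))
  obtain ⟨t, ht, hcov⟩ := hcomp.elim_nhds_subcover
    (fun w => {w' : Fin d → ℝ | ρ w / 2 < ‖θ (g w) - ((lin w' (x (g w)) : ℝ) : T)‖}) (by
      intro w hw
      refine (isOpen_lt continuous_const (I_TEST.cont (θ (g w)) (x (g w)))).mem_nhds ?_
      exact half_lt_self (hρpos w hw))
  obtain ⟨η, hη, hle⟩ := exists_pos_le t (fun w => ρ w / 2) fun w hw => half_pos (hρpos w (ht w hw))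
  refine ⟨t.image g, η, hη, fun w hw => ?_⟩
  obtain ⟨v, hv, hvw⟩ := Set.mem_iUnion₂.1 (hcov ((hmem w).2 hw))
  exact ⟨g v, Finset.mem_image_of_mem g hv, (hle v hv).trans (le_of_lt hvw)⟩

end Pool.Agent.Work.MP_0f91f8_co.Nil
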