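import Pool.Agent.Work.MP_0f91f8_co.Nil.Stmts

/-!
Item TLIFT of block [0f91f8 NQ]: twisted recurrence passes to the group of lifts.
-/

namespace Pool.Agent.Work.MP_0f91f8_co.Nil

open Quad

namespace I_TLIFT

lemma norm_coe_le (t : ℝ) : ‖(t : T)‖ ≤ |t| := by
  rw [UnitAddCircle.norm_eq]
  have h := round_le t 0
  simpa using h

lemma lin_add {d : ℕ} (w x y : Fin d → ℝ) : lin w (x + y) = lin w x + lin w y := by
  simp [lin, mul_add, Finset.sum_add_distrib]

lemma abs_lin_le {d : ℕ} (w t : Fin d → ℝ) (η : ℝ) (hw : ∀ j, |w j| ≤ 1 / 2)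
    (ht : ∀ j, |t j| ≤ η) (hη : 0 ≤ η) : |lin w t| ≤ d * η := by
  unfold lin
  refine (Finset.abs_sum_le_sum_abs _ _).trans ?_
  have h : ∀ j ∈ (Finset.univ : Finset (Fin d)), |w j * t j| ≤ η := by
    intro j _
    rw [abs_mul]
    have h1 := hw j
    have h2 := ht j
    have h3 := abs_nonneg (w j)
    have h4 := abs_nonneg (t j)
    nlinarith
  refine (Finset.sum_le_card_nsmul _ _ _ h).trans ?_
  simp

variable {G : Type} [AddCommGroup G] {d : ℕ} (f : Fin d → G →+ T)

/-- the projection to the group -/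
def pr : lft f →+ G := (AddMonoidHom.fst G (Fin d → ℝ)).comp (lft f).subtype

lemma pr_apply (h : lft f) : pr f h = (h : G × (Fin d → ℝ)).1 := rfl

lemma xm_apply (h : lft f) : xm f h = (h : G × (Fin d → ℝ)).2 := rfl

lemma mem_coe (h : lft f) (j : Fin d) : ((xm f h j : ℝ) : T) = f j (pr f h) := h.2 j

lemma pr_surj : Function.Surjective (pr f) := by
  intro g
  choose y hy using fun j => exists_lift (f j g)
  exact ⟨⟨(g, y), fun j => (hy j).1⟩, rfl⟩

/-- the basis vectors -/
def bas (j : Fin d) : lft f := ⟨(0, Pi.single j 1), by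
  intro i
  simp only [map_zero]
  by_cases h : i = j
  · subst h
    rw [Pi.single_eq_same]
    exact AddCircle.coe_period 1
  · rw [Pi.single_eq_of_ne h]
    exact AddCircle.coe_zero (p := 1)⟩

/-- a linear form modulo one, as a homomorphism on the group of lifts -/
noncomputable def lh (w : Fin d → ℝ) : lft f →+ T :=
  AddMonoidHom.mk' (fun h : lft f => ((lin w (xm f h) : ℝ) : T)) (by
    intro a b
    have h : xm f (a + b) = xm f a + xm f b := map_add (xm f) a b
    rw [h, lin_add]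
    exact AddCircle.coe_add (p := (1 : ℝ)) _ _)

lemma lh_apply (w : Fin d → ℝ) (h : lft f) : lh f w h = ((lin w (xm f h) : ℝ) : T) := rfl

lemma lh_bas (w : Fin d → ℝ) (j : Fin d) : lh f w (bas f j) = ((w j : ℝ) : T) := by
  rw [lh_apply]
  congr 1
  have h : xm f (bas f j) = Pi.single j 1 := rfl
  rw [h]
  unfold lin
  rw [Finset.sum_eq_single j]
  · simp
  · intro i _ hi
    rw [Pi.single_eq_of_ne hi, mul_zero]
  · intro h
    exact absurd (Finset.mem_univ j) h

lemma ker_comb (h : lft f) (hh : pr f h = 0) : ∃ n : Fin d → ℤ, h = ∑ j, n j • bas f j := by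
  have h1 : ∀ j, ∃ n : ℤ, (n : ℝ) = xm f h j := by
    intro j
    have h2 := mem_coe f h j
    rw [hh, map_zero] at h2
    obtain ⟨n, hn⟩ := (AddCircle.coe_eq_zero_iff (p := (1 : ℝ))).1 h2
    refine ⟨n, ?_⟩
    rw [← hn]
    simp
  choose n hn using h1
  refine ⟨n, ?_⟩
  apply Subtype.ext
  apply Prod.ext
  · have h3 : pr f (∑ j, n j • bas f j) = 0 := by
      rw [map_sum]
      apply Finset.sum_eq_zero
      intro j _
      rw [map_zsmul]
      have : pr f (bas f j) = 0 := rfl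
      rw [this, smul_zero]
    have h4 : pr f h = pr f (∑ j, n j • bas f j) := by rw [hh, h3]
    exact h4
  · have h3 : xm f h = xm f (∑ j, n j • bas f j) := by
      rw [map_sum]
      funext i
      rw [Finset.sum_apply, Finset.sum_eq_single i]
      · rw [map_zsmul]
        have : xm f (bas f i) = Pi.single i 1 := rfl
        rw [this, Pi.smul_apply, Pi.single_eq_same, ← hn i]
        simp
      · intro j _ hj
        rw [map_zsmul]
        have : xm f (bas f j) = Pi.single j 1 := rfl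
        rw [this, Pi.smul_apply, Pi.single_eq_of_ne (Ne.symm hj), smul_zero]
      · intro h
        exact absurd (Finset.mem_univ i) h
    exact h3

/-- every homomorphism on the group of lifts is the sum of one pulled back from the group and of a
linear form -/
lemma factor (F : lft f →+ T) : ∃ (w : Fin d → ℝ) (F' : G →+ T), (∀ j, |w j| ≤ 1 / 2) ∧
    ∀ h, F h = F' (pr f h) + ((lin w (xm f h) : ℝ) : T) := by
  choose w hw using fun j => exists_lift (F (bas f j))
  have hk : (pr f).ker ≤ (F - lh f w).ker := by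
    intro h hh
    rw [AddMonoidHom.mem_ker] at hh ⊢
    obtain ⟨n, rfl⟩ := ker_comb f h hh
    rw [map_sum]
    apply Finset.sum_eq_zero
    intro j _
    rw [map_zsmul, AddMonoidHom.sub_apply, lh_bas, (hw j).1, sub_self, smul_zero]
  refine ⟨w, (pr f).liftOfSurjective (pr_surj f) ⟨F - lh f w, hk⟩, fun j => (hw j).2.2, ?_⟩
  intro h
  have h1 : ((pr f).liftOfSurjective (pr_surj f) ⟨F - lh f w, hk⟩) (pr f h) = (F - lh f w) h :=
    AddMonoidHom.liftOfRightInverse_comp_apply _ _ _ _ _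
  rw [h1, AddMonoidHom.sub_apply, lh_apply]
  abel

end I_TLIFT

open I_TLIFT in
theorem TLIFT_pf : TLIFT := by
  classical
  intro G _ d f Tr hT 𝓕 h𝓕 κ δ hδ
  choose w F' hw hF' using fun F => factor f F
  obtain ⟨δ', hδ'0, hδ'1⟩ : ∃ δ' : ℝ, 0 < δ' ∧ (d + 1) * δ' ≤ δ := by
    refine ⟨δ / (d + 1), by positivity, ?_⟩
    rw [mul_div_cancel₀]
    positivity
  have hδ'2 : δ' ≤ δ := by
    have : (0 : ℝ) ≤ d := Nat.cast_nonneg d
    nlinarith
  obtain ⟨a₀, b₀, hab, hrec⟩ := hT (F' '' 𝓕 ∪ Set.range f)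
    ((h𝓕.image _).union (Set.finite_range f)) (pr f κ) δ' hδ'0
  have hf : ∀ j, ‖f j a₀‖ < δ' ∧ ‖f j b₀ - f j (pr f κ)‖ < δ' := fun j =>
    hrec (f j) (Or.inr ⟨j, rfl⟩)
  choose t ht using fun j => exists_lift (f j a₀)
  choose s hs using fun j => exists_lift (f j b₀ - f j (pr f κ))
  have hta : ∀ j, |t j| < δ' := fun j => by rw [(ht j).2.1]; exact (hf j).1
  have hsa : ∀ j, |s j| < δ' := fun j => by rw [(hs j).2.1]; exact (hf j).2
  obtain ⟨a, ha1, ha2⟩ : ∃ a : lft f, pr f a = a₀ ∧ xm f a = t :=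
    ⟨⟨(a₀, t), fun j => (ht j).1⟩, rfl, rfl⟩
  obtain ⟨b, hb1, hb2⟩ : ∃ b : lft f, pr f b = b₀ ∧ xm f b = xm f κ + s := by
    refine ⟨⟨(b₀, xm f κ + s), fun j => ?_⟩, rfl, rfl⟩
    change (((xm f κ + s) j : ℝ) : T) = f j b₀
    rw [Pi.add_apply, AddCircle.coe_add, (hs j).1, mem_coe]
    abel
  refine ⟨a, b, ?_, ?_, ?_, ?_⟩
  · change Tr (pr f a) (pr f b)
    rw [ha1, hb1]
    exact hab
  · rw [ha2]
    refine lt_of_lt_of_le ?_ hδ'2
    rw [pi_norm_lt_iff hδ'0]
    exact hta
  · rw [hb2, add_sub_cancel_left]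
    refine lt_of_lt_of_le ?_ hδ'2
    rw [pi_norm_lt_iff hδ'0]
    exact hsa
  · intro F hF
    have h1 := hrec (F' F) (Or.inl ⟨F, hF, rfl⟩)
    constructor
    · rw [hF' F a, ha1, ha2]
      have h2 := abs_lin_le (w F) t δ' (hw F) (fun j => (hta j).le) hδ'0.le
      have h3 := norm_coe_le (lin (w F) t)
      have h4 := norm_add_le (F' F a₀) ((lin (w F) t : ℝ) : T)
      nlinarith [h1.1]
    · have h5 : F b - F κ = (F' F b₀ - F' F (pr f κ)) + ((lin (w F) s : ℝ) : T) := by
        rw [hF' F b, hF' F κ, hb1, hb2, lin_add, AddCircle.coe_add]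
        abel
      rw [h5]
      have h2 := abs_lin_le (w F) s δ' (hw F) (fun j => (hsa j).le) hδ'0.le
      have h3 := norm_coe_le (lin (w F) s)
      have h4 := norm_add_le (F' F b₀ - F' F (pr f κ)) ((lin (w F) s : ℝ) : T)
      nlinarith [h1.2]

end Pool.Agent.Work.MP_0f91f8_co.Nil
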