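import Pool.Agent.Work.MP_0f91f8_co.Nil.Stmts

/-!
Item X2: locally quadratic maps near zero extend to quadratic maps.
-/

namespace Pool.Agent.Work.MP_0f91f8_co.Nil

open Quad

namespace I_X2

/-- the local form -/
def bb {H : Type} [AddCommGroup H] (φ : H → T) (h g : H) : T := φ (g + h) - φ g - φ h + φ 0

lemma bb_symm {H : Type} [AddCommGroup H] (φ : H → T) (h g : H) : bb φ h g = bb φ g h := by
  unfold bb
  rw [add_comm h g]
  abel

lemma norm_map_add_lt {H : Type} [AddCommGroup H] {d : ℕ} (x : H →+ (Fin d → ℝ)) {a b : ℝ}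
    {g h : H} (hg : ‖x g‖ < a) (hh : ‖x h‖ < b) : ‖x (g + h)‖ < a + b := by
  rw [map_add]
  exact (norm_add_le _ _).trans_lt (add_lt_add hg hh)

lemma bb_add {H : Type} [AddCommGroup H] {d : ℕ} (x : H →+ (Fin d → ℝ)) (r : ℝ) (hr : 0 < r)
    (φ : H → T) (hφ : LQ0 (fun h => ‖x h‖ < r) φ) (h g g' : H) (hh : ‖x h‖ < r / 4)
    (hg : ‖x g‖ < r / 4) (hg' : ‖x g'‖ < r / 4) : bb φ h (g + g') = bb φ h g + bb φ h g' := by
  have h1 := hφ g g' h (by show _ < _; linarith) (by show _ < _; linarith)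
    (by show _ < _; linarith)
    (by show _ < _; have := norm_map_add_lt x hg hg'; linarith)
    (by show _ < _; have := norm_map_add_lt x hg hh; linarith)
    (by show _ < _; have := norm_map_add_lt x hg' hh; linarith)
    (by show _ < _; have := norm_map_add_lt x (norm_map_add_lt x hg hg') hh; linarith)
  have h2 : φ (g + g' + h) = φ (g + g') + φ (g + h) + φ (g' + h) + φ 0 - φ g - φ g' - φ h := by
    rw [← h1]
    abel
  unfold bb
  rw [h2]
  abel

end I_X2

open I_X2 in
theorem X2_pf (hXH : XH) (hXG : XG) (hSP : SPLIT) : X2 := by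
  classical
  intro H _ d x hx r hr φ hφ
  have hex : ∀ h : H, ∃ Bt : H →+ T, ‖x h‖ < r / 4 → ∀ g, ‖x g‖ < r / 16 → Bt g = bb φ h g := by
    intro h
    by_cases hh : ‖x h‖ < r / 4
    · obtain ⟨Bt, hBt⟩ := hXH H d x hx T (r / 4) (by linarith) (bb φ h)
        (fun g g' hg hg' _ => bb_add x r hr φ hφ h g g' hh hg hg')
      refine ⟨Bt, fun _ g hg => hBt g (by linarith)⟩
    · exact ⟨0, fun h' => absurd h' hh⟩
  choose β hβ using hex
  obtain ⟨B, hB⟩ := hXH H d x hx (H →+ T) (r / 4) (by linarith) β (by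
    intro h h' hh hh' hs
    apply hXG H d x hx T (r / 16) (by linarith)
    intro g hg
    rw [AddMonoidHom.add_apply, hβ _ hs g hg, hβ _ hh g hg, hβ _ hh' g hg, bb_symm φ (h + h') g,
      bb_symm φ h g, bb_symm φ h' g]
    exact bb_add x r hr φ hφ g h h' (by linarith) hh hh')
  have hBb : ∀ h g, ‖x h‖ < r / 16 → ‖x g‖ < r / 16 → B h g = bb φ h g := by
    intro h g hh hg
    rw [hB h (by linarith), hβ h (by linarith) g hg]
  have hsym : B = B.flip := by
    apply hXG H d x hx (H →+ T) (r / 16) (by linarith)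
    intro h hh
    apply hXG H d x hx T (r / 16) (by linarith)
    intro g hg
    rw [AddMonoidHom.flip_apply, hBb h g hh hg, hBb g h hg hh, bb_symm]
  have hsym' : ∀ g h, B g h = B h g := by
    intro g h
    conv_lhs => rw [hsym]
    rw [AddMonoidHom.flip_apply]
  obtain ⟨Q, hQ⟩ := hSP H B hsym'
  obtain ⟨L, hL⟩ := hXH H d x hx T (r / 16) (by linarith) (fun g => φ g - φ 0 - Q g) (by
    intro g h hg hh _
    have h1 := hBb g h hg hh
    simp only [hQ g h, h1, bb, add_comm h g]
    abel)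
  refine ⟨fun g => φ 0 + Q g + L g, ?_, ?_⟩
  · intro a b c
    simp only [hQ, map_add, AddMonoidHom.add_apply, map_zero]
    have h0 : Q 0 = 0 := by
      have := hQ 0 0
      rw [add_zero, map_zero] at this
      have h3 : Q 0 + 0 = Q 0 + Q 0 := by
        rw [add_zero]
        calc Q 0 = Q 0 + Q 0 + (0 : T) := this
          _ = Q 0 + Q 0 := add_zero _
      exact (add_left_cancel h3).symm
    rw [h0]
    abel
  · intro h hh
    show φ 0 + Q h + L h = φ h
    rw [hL h (by linarith)]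
    abel

end Pool.Agent.Work.MP_0f91f8_co.Nil
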