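import Pool.Agent.Work.MP_0f91f8_co.Nil.Stmts

/-!
Block [0f91f8 NQ], item XG: small elements generate.
-/

namespace Pool.Agent.Work.MP_0f91f8_co.Nil

theorem XG_pf : XG := by
  intro H _ d x hx A _ r hr Φ Ψ hΦ
  ext h
  -- choose `N`
  obtain ⟨N, hN⟩ := exists_nat_gt (2 * ‖x h‖ / r)
  have hN0 : (0 : ℝ) < (N : ℝ) + 1 := by positivity
  have hN1 : ‖x h‖ < ((N : ℝ) + 1) * (r / 2) := by
    have h1 : 2 * ‖x h‖ / r < (N : ℝ) + 1 := by linarith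
    rw [div_lt_iff₀ hr] at h1
    nlinarith
  -- choose `u`
  have hpos : 0 < r / (2 * ((N : ℝ) + 1)) := by positivity
  obtain ⟨y, hy, ⟨u, rfl⟩⟩ :=
    Metric.dense_iff.1 hx (((N : ℝ) + 1)⁻¹ • x h) (r / (2 * ((N : ℝ) + 1))) hpos
  rw [Metric.mem_ball, dist_eq_norm] at hy
  have h2 : ‖x (h - (N + 1) • u)‖ < r / 2 := by
    have e1 : x (h - (N + 1) • u) = ((N : ℝ) + 1) • (((N : ℝ) + 1)⁻¹ • x h - x u) := by
      rw [map_sub, map_nsmul, smul_sub, smul_smul, mul_inv_cancel₀ hN0.ne', one_smul]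
      congr 1
      rw [← Nat.cast_smul_eq_nsmul ℝ]
      push_cast
      rfl
    rw [e1, norm_smul, Real.norm_of_nonneg hN0.le, norm_sub_rev]
    calc ((N : ℝ) + 1) * ‖x u - ((N : ℝ) + 1)⁻¹ • x h‖
        < ((N : ℝ) + 1) * (r / (2 * ((N : ℝ) + 1))) := by
          exact mul_lt_mul_of_pos_left hy hN0
      _ = r / 2 := by field_simp
  have h3 : ‖x u‖ < r := by
    have e2 : x u = (x u - ((N : ℝ) + 1)⁻¹ • x h) + ((N : ℝ) + 1)⁻¹ • x h := by abel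
    have e3 : ‖((N : ℝ) + 1)⁻¹ • x h‖ < r / 2 := by
      rw [norm_smul, Real.norm_of_nonneg (by positivity), inv_mul_lt_iff₀ hN0]
      exact hN1
    have e4 : r / (2 * ((N : ℝ) + 1)) ≤ r / 2 := by
      apply div_le_div_of_nonneg_left hr.le (by norm_num)
      have : (0 : ℝ) ≤ N := Nat.cast_nonneg N
      linarith
    rw [e2]
    calc ‖(x u - ((N : ℝ) + 1)⁻¹ • x h) + ((N : ℝ) + 1)⁻¹ • x h‖
        ≤ ‖x u - ((N : ℝ) + 1)⁻¹ • x h‖ + ‖((N : ℝ) + 1)⁻¹ • x h‖ := norm_add_le _ _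
      _ < r := by linarith
  have h4 : h = (N + 1) • u + (h - (N + 1) • u) := by abel
  rw [h4, map_add, map_add, map_nsmul, map_nsmul, hΦ u h3, hΦ _ (by linarith)]

end Pool.Agent.Work.MP_0f91f8_co.Nil
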