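import Pool.Agent.Work.MP_0f91f8_co.Nil.Stmts

/-!
Item XH: homomorphisms defined near zero extend (dense range).
-/

namespace Pool.Agent.Work.MP_0f91f8_co.Nil

namespace I_XH

variable {H : Type} [AddCommGroup H] {d : ℕ} {x : H →+ (Fin d → ℝ)}
  {A : Type} [AddCommGroup A] {r : ℝ} {φ : H → A}

lemma norm_x_nsmul (x : H →+ (Fin d → ℝ)) (N : ℕ) (t : H) : ‖x (N • t)‖ = (N : ℝ) * ‖x t‖ := by
  rw [map_nsmul, ← Nat.cast_smul_eq_nsmul ℝ, norm_smul]
  simp

lemma exists_near (hx : DenseRange x) (y : Fin d → ℝ) {ε : ℝ} (hε : 0 < ε) :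
    ∃ w : H, ‖x w - y‖ < ε := by
  obtain ⟨w, hw⟩ := hx.exists_dist_lt y hε
  refine ⟨w, ?_⟩
  rw [dist_comm, dist_eq_norm] at hw
  exact hw

/-- an approximate division by `N` -/
lemma exists_div (hx : DenseRange x) (h : H) {N : ℕ} (hN : 0 < N) {ε : ℝ} (hε : 0 < ε) :
    ∃ w : H, ‖x (h - N • w)‖ < ε := by
  have hN' : (0 : ℝ) < N := by exact_mod_cast hN
  obtain ⟨w, hw⟩ := exists_near hx ((1 / (N : ℝ)) • x h) (div_pos hε hN')
  refine ⟨w, ?_⟩
  have h1 : x (h - N • w) = (-(N : ℝ)) • (x w - (1 / (N : ℝ)) • x h) := by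
    rw [map_sub, map_nsmul, ← Nat.cast_smul_eq_nsmul ℝ, smul_sub, smul_smul]
    have : -(N : ℝ) * (1 / (N : ℝ)) = -1 := by field_simp
    rw [this]
    module
  rw [h1, norm_smul]
  have h2 : ‖-(N : ℝ)‖ = N := by rw [norm_neg, Real.norm_of_nonneg hN'.le]
  rw [h2]
  calc (N : ℝ) * ‖x w - (1 / (N : ℝ)) • x h‖ < N * (ε / N) := by
        exact mul_lt_mul_of_pos_left hw hN'
    _ = ε := by field_simp

section

variable (hr : 0 < r)
  (hφ : ∀ g h, ‖x g‖ < r → ‖x h‖ < r → ‖x (g + h)‖ < r → φ (g + h) = φ g + φ h)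

include hr hφ

lemma zero' : φ 0 = 0 := by
  have h := hφ 0 0 (by simpa using hr) (by simpa using hr) (by simpa using hr)
  rw [add_zero] at h
  exact left_eq_add.mp h

lemma nsmul' (N : ℕ) (t : H) (h : (N : ℝ) * ‖x t‖ < r) : φ (N • t) = N • φ t := by
  induction N with
  | zero => simp [zero' hr hφ]
  | succ n ih =>
    have hn : (0 : ℝ) ≤ n := Nat.cast_nonneg n
    have ht : 0 ≤ ‖x t‖ := norm_nonneg _
    push_cast at h
    have h1 : (n : ℝ) * ‖x t‖ < r := by nlinarith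
    have h2 : ‖x t‖ < r := by nlinarith
    have h3 : ‖x (n • t + t)‖ < r := by
      have := norm_x_nsmul x (n + 1) t
      rw [succ_nsmul] at this
      rw [this]
      push_cast
      exact h
    rw [succ_nsmul, succ_nsmul, hφ _ _ (by rw [norm_x_nsmul]; exact h1) h2 h3, ih h1]

/-- good pairs -/
lemma key {h u w : H} {N M : ℕ} (hN : 0 < N) (hM : 0 < M) (hu : ‖x u‖ < r / 4)
    (hu2 : ‖x (h - N • u)‖ < r / 4) (hw : ‖x (h - (N * M) • w)‖ < r / 16) :
    N • φ u + φ (h - N • u) = (N * M) • φ w + φ (h - (N * M) • w) := by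
  have hN' : (1 : ℝ) ≤ N := by exact_mod_cast hN
  have hM' : (1 : ℝ) ≤ M := by exact_mod_cast hM
  set t : H := M • w - u with ht
  have e1 : N • t = (h - N • u) - (h - (N * M) • w) := by
    rw [ht, smul_sub, smul_smul]; abel
  have n1 : ‖x (N • t)‖ < 5 * r / 16 := by
    rw [e1, map_sub]
    calc _ ≤ ‖x (h - N • u)‖ + ‖x (h - (N * M) • w)‖ := norm_sub_le _ _
      _ < _ := by linarith
  have n1' : (N : ℝ) * ‖x t‖ < 5 * r / 16 := by rwa [norm_x_nsmul] at n1
  have n2 : ‖x t‖ < 5 * r / 16 := by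
    have := norm_nonneg (x t)
    nlinarith
  have e2 : M • w = u + t := by rw [ht]; abel
  have n3 : ‖x (u + t)‖ < r := by
    rw [map_add]
    calc _ ≤ ‖x u‖ + ‖x t‖ := norm_add_le _ _
      _ < r := by linarith
  have n4 : (M : ℝ) * ‖x w‖ < r := by
    rw [← norm_x_nsmul, e2]; exact n3
  have a1 : φ (M • w) = M • φ w := nsmul' hr hφ M w n4
  have a2 : φ (u + t) = φ u + φ t := hφ u t (by linarith) (by linarith) n3
  have a3 : φ (N • t) = N • φ t := nsmul' hr hφ N t (by linarith)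
  have e3 : h - N • u = (h - (N * M) • w) + N • t := by rw [e1]; abel
  have a4 : φ (h - N • u) = φ (h - (N * M) • w) + φ (N • t) := by
    rw [e3]
    exact hφ _ _ (by linarith) (by linarith) (by rw [← e3]; linarith)
  have a5 : φ u + φ t = M • φ w := by rw [← a2, ← e2, a1]
  calc N • φ u + φ (h - N • u) = N • φ u + (φ (h - (N * M) • w) + N • φ t) := by rw [a4, a3]
    _ = N • (φ u + φ t) + φ (h - (N * M) • w) := by rw [smul_add]; abel
    _ = (N * M) • φ w + φ (h - (N * M) • w) := by rw [a5, smul_smul]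

lemma indep (hx : DenseRange x) {h u v : H} {N M : ℕ} (hN : 0 < N) (hM : 0 < M)
    (hu : ‖x u‖ < r / 4) (hu2 : ‖x (h - N • u)‖ < r / 4)
    (hv : ‖x v‖ < r / 4) (hv2 : ‖x (h - M • v)‖ < r / 4) :
    N • φ u + φ (h - N • u) = M • φ v + φ (h - M • v) := by
  obtain ⟨w, hw⟩ := exists_div hx h (N := N * M) (Nat.mul_pos hN hM) (ε := r / 16) (by linarith)
  have hw' : ‖x (h - (M * N) • w)‖ < r / 16 := by rwa [mul_comm M N]
  rw [key hr hφ hN hM hu hu2 hw, key hr hφ hM hN hv hv2 hw', mul_comm M N]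

end

/-- a common divisor -/
lemma exists_good (hr : 0 < r) (hx : DenseRange x) (h h' : H) :
    ∃ (N : ℕ) (u u' : H), 0 < N ∧ ‖x u‖ < r / 8 ∧ ‖x (h - N • u)‖ < r / 8 ∧
      ‖x u'‖ < r / 8 ∧ ‖x (h' - N • u')‖ < r / 8 := by
  obtain ⟨N, hN⟩ := exists_nat_gt (16 * (‖x h‖ + ‖x h'‖ + r) / r)
  have hN0 : (0 : ℝ) < N := by
    refine lt_of_le_of_lt ?_ hN
    have := norm_nonneg (x h)
    have := norm_nonneg (x h')
    positivity
  have hN1 : 0 < N := by exact_mod_cast hN0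
  rw [div_lt_iff₀ hr] at hN
  obtain ⟨u, hu⟩ := exists_div hx h hN1 (ε := r / 16) (by linarith)
  obtain ⟨u', hu'⟩ := exists_div hx h' hN1 (ε := r / 16) (by linarith)
  have aux : ∀ (g v : H), ‖x g‖ ≤ ‖x h‖ + ‖x h'‖ → ‖x (g - N • v)‖ < r / 16 → ‖x v‖ < r / 8 := by
    intro g v hg hv
    have e : x (N • v) = x g - x (g - N • v) := by rw [map_sub]; abel
    have e2 : (N : ℝ) * ‖x v‖ ≤ ‖x g‖ + ‖x (g - N • v)‖ := by
      rw [← norm_x_nsmul, e]
      exact norm_sub_le _ _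
    by_contra hc
    push Not at hc
    have h3 : (N : ℝ) * (r / 8) ≤ N * ‖x v‖ := mul_le_mul_of_nonneg_left hc hN0.le
    nlinarith
  have p1 := norm_nonneg (x h)
  have p2 := norm_nonneg (x h')
  exact ⟨N, u, u', hN1, aux h u (by linarith) hu, by linarith, aux h' u' (by linarith) hu',
    by linarith⟩

end I_XH

open I_XH in
theorem XH_pf : XH := by
  intro H _ d x hx A _ r hr φ hφ
  have hex : ∀ h : H, ∃ (N : ℕ) (u : H), 0 < N ∧ ‖x u‖ < r / 4 ∧ ‖x (h - N • u)‖ < r / 4 := by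
    intro h
    obtain ⟨N, u, -, h1, h2, h3, -, -⟩ := exists_good hr hx h h
    exact ⟨N, u, h1, by linarith, by linarith⟩
  choose N u hN hu hu2 using hex
  have hval : ∀ (h v : H) (M : ℕ), 0 < M → ‖x v‖ < r / 4 → ‖x (h - M • v)‖ < r / 4 →
      N h • φ (u h) + φ (h - N h • u h) = M • φ v + φ (h - M • v) := fun h v M hM hv hv2 =>
    indep hr hφ hx (hN h) hM (hu h) (hu2 h) hv hv2
  have hadd : ∀ g h : H, N (g + h) • φ (u (g + h)) + φ (g + h - N (g + h) • u (g + h)) =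
      (N g • φ (u g) + φ (g - N g • u g)) + (N h • φ (u h) + φ (h - N h • u h)) := by
    intro g h
    obtain ⟨M, v, v', hM, hv, hv2, hv', hv2'⟩ := exists_good hr hx g h
    have e : g + h - M • (v + v') = (g - M • v) + (h - M • v') := by rw [smul_add]; abel
    have n1 : ‖x (v + v')‖ < r / 4 := by
      rw [map_add]
      calc _ ≤ ‖x v‖ + ‖x v'‖ := norm_add_le _ _
        _ < _ := by linarith
    have n2 : ‖x ((g - M • v) + (h - M • v'))‖ < r / 4 := by
      rw [map_add]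
      calc _ ≤ ‖x (g - M • v)‖ + ‖x (h - M • v')‖ := norm_add_le _ _
        _ < _ := by linarith
    rw [hval (g + h) (v + v') M hM n1 (by rw [e]; exact n2),
      hval g v M hM (by linarith) (by linarith), hval h v' M hM (by linarith) (by linarith), e,
      hφ v v' (by linarith) (by linarith) (by linarith),
      hφ _ _ (by linarith) (by linarith) (by linarith), smul_add]
    abel
  refine ⟨AddMonoidHom.mk' (fun h => N h • φ (u h) + φ (h - N h • u h)) hadd, ?_⟩
  intro h hh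
  show N h • φ (u h) + φ (h - N h • u h) = φ h
  rw [hval h 0 1 one_pos (by simpa using (by linarith : 0 < r / 4)) (by simpa using hh),
    zero' hr hφ]
  simp

end Pool.Agent.Work.MP_0f91f8_co.Nil
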