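import Pool.Agent.Work.MP_0f91f8_co.Nil.Fin
import Pool.Agent.Work.MP_0f91f8_co.Nil.I_XH
import Pool.Agent.Work.MP_0f91f8_co.Nil.I_XG
import Pool.Agent.Work.MP_0f91f8_co.Nil.I_SPLIT
import Pool.Agent.Work.MP_0f91f8_co.Nil.I_X2
import Pool.Agent.Work.MP_0f91f8_co.Nil.I_DUAL
import Pool.Agent.Work.MP_0f91f8_co.Nil.I_CHI
import Pool.Agent.Work.MP_0f91f8_co.Nil.I_TEST
import Pool.Agent.Work.MP_0f91f8_co.Nil.I_CORE
import Pool.Agent.Work.MP_0f91f8_co.Nil.I_DENSE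
import Pool.Agent.Work.MP_0f91f8_co.Nil.I_TLIFT
import Pool.Agent.Work.MP_0f91f8_co.Nil.I_LOCI
import Pool.Agent.Work.MP_0f91f8_co.Nil.I_REDUCE
import Pool.Agent.Work.MP_0f91f8_co.Nil.I_LOC
import Pool.Agent.Work.MP_0f91f8_co.Nil.I_SYND
import Pool.Agent.Work.MP_0f91f8_co.Nil.I_RATF
import Pool.Agent.Work.MP_0f91f8_co.Nil.I_LIMQ
import Pool.Agent.Work.MP_0f91f8_co.Nil.I_MAINF

/-!
Assembly of the block.
-/

namespace Pool.Agent.Work.MP_0f91f8_co.Nil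

theorem mainf : MAINF :=
  have hX2 : X2 := X2_pf XH_pf XG_pf SPLIT_pf
  have hCORE : CORE := CORE_pf DUAL_pf CHI_pf TEST_pf
  have hLOCI : LOCI := LOCI_pf hX2 hCORE DENSE_pf TLIFT_pf
  have hLOC : LOC := LOC_pf hLOCI REDUCE_pf
  MAINF_pf hLOC SYND_pf RATF_pf LIMQ_pf

end Pool.Agent.Work.MP_0f91f8_co.Nil
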