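import Pool.Agent.Work.MP_0f91f8_co.Nil.Stmts

/-!
From the finite-dimensional form to arbitrary index sets and neighbourhoods.
-/

open Filter Topology

namespace Pool.Agent.Work.MP_0f91f8_co.Nil

open Quad

lemma box {I : Type*} {u₀ : I → T} {U : Set (I → T)} (hU : U ∈ 𝓝 u₀) :
    ∃ (S : Finset I) (ε : ℝ), 0 < ε ∧ ∀ u : I → T, (∀ i ∈ S, ‖u i - u₀ i‖ < ε) → u ∈ U := by
  classical
  rw [nhds_pi, Filter.mem_pi] at hU
  obtain ⟨J, hJ, t, ht, hsub⟩ := hU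
  have hex : ∀ i, ∃ r : ℝ, 0 < r ∧ Metric.ball (u₀ i) r ⊆ t i := fun i =>
    Metric.mem_nhds_iff.1 (ht i)
  choose r hr hrt using hex
  obtain ⟨ε, hε, hle⟩ := exists_pos_le hJ.toFinset r (fun i _ => hr i)
  refine ⟨hJ.toFinset, ε, hε, fun u hu => hsub fun i hi => hrt i ?_⟩
  rw [Metric.mem_ball, dist_eq_norm]
  exact lt_of_lt_of_le (hu i (hJ.mem_toFinset.2 hi)) (hle i (hJ.mem_toFinset.2 hi))

theorem main (hM : MAINF) {I J : Type*} {f : ℕ → I → T}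
    (hf : ∀ m n : ℕ, 0 < m → 0 < n → f (m * n) = f m + f n) {n₀ : ℕ} (hn₀ : 0 < n₀)
    {W : Set (I → T)} (hW : W ∈ 𝓝 (f n₀)) {φ : ℕ → J → T}
    (hφ : ∀ n a b c : ℕ, 0 < n → 0 < a → 0 < b → 0 < c →
      f n ∈ W → f (n * a) ∈ W → f (n * b) ∈ W → f (n * c) ∈ W →
      f (n * a * b) ∈ W → f (n * a * c) ∈ W → f (n * b * c) ∈ W → f (n * a * b * c) ∈ W →
      ∀ j, φ (n * a * b * c) j + φ (n * a) j + φ (n * b) j + φ (n * c) j =
        φ (n * a * b) j + φ (n * a * c) j + φ (n * b * c) j + φ n j)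
    {U : Set ((I → T) × (J → T))} (hU : U ∈ 𝓝 (f n₀, φ n₀)) {A : Set ℕ} (hA : Thick A) :
    ∃ x y z : ℕ, 0 < x ∧ 0 < y ∧ 0 < z ∧ x ^ 2 + y ^ 2 = z ^ 2 ∧ x ∈ A ∧ y ∈ A ∧ z ∈ A ∧
      (f x, φ x) ∈ U ∧ (f y, φ y) ∈ U ∧ (f z, φ z) ∈ U := by
  classical
  obtain ⟨S₀, r, hr, hSW⟩ := box hW
  rw [mem_nhds_prod_iff] at hU
  obtain ⟨U₁, hU₁, U₂, hU₂, hUU⟩ := hU
  obtain ⟨S₁, ε₁, hε₁, hSU₁⟩ := box hU₁
  obtain ⟨S₂, ε₂, hε₂, hSU₂⟩ := box hU₂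
  set S := S₀ ∪ S₁ with hS
  set ε := min ε₁ ε₂ with hε
  have hε0 : 0 < ε := lt_min hε₁ hε₂
  let e := (Fintype.equivFin S).symm
  let e' := (Fintype.equivFin S₂).symm
  let f' : ℕ → Fin (Fintype.card S) → T := fun n i => f n (e i)
  let φ' : ℕ → Fin (Fintype.card S₂) → T := fun n j => φ n (e' j)
  have hf' : AddF f' := by
    intro m n hm hn
    funext i
    show f (m * n) (e i) = f m (e i) + f n (e i)
    rw [hf m n hm hn]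
    rfl
  have hdom : ∀ n, Dom f' n₀ r n → f n ∈ W := by
    intro n hn
    apply hSW
    intro i hi
    have hiS : i ∈ S := Finset.mem_union_left _ hi
    have h1 := hn.2 (e.symm ⟨i, hiS⟩)
    show ‖f n i - f n₀ i‖ < r
    have h2 : (e (e.symm ⟨i, hiS⟩) : S) = ⟨i, hiS⟩ := e.apply_symm_apply _
    change ‖f n (e (e.symm ⟨i, hiS⟩)) - f n₀ (e (e.symm ⟨i, hiS⟩))‖ < r at h1
    rw [h2] at h1
    exact h1
  have hpos : ∀ m n : ℕ, 0 < m * n → 0 < n := fun m n h => Nat.pos_of_mul_pos_left h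
  have hLQ : ∀ j, LQN f' n₀ r (fun n => φ' n j) := by
    intro j n a b c h0 h1 h2 h3 h4 h5 h6 h7
    have ha : 0 < a := hpos _ _ h1.1
    have hb : 0 < b := hpos _ _ h2.1
    have hc : 0 < c := hpos _ _ h3.1
    exact hφ n a b c h0.1 ha hb hc (hdom _ h0) (hdom _ h1) (hdom _ h2) (hdom _ h3) (hdom _ h4)
      (hdom _ h5) (hdom _ h6) (hdom _ h7) (e' j)
  obtain ⟨x, y, z, hx, hy, hz, hxyz, hxA, hyA, hzA, hF, hP⟩ :=
    hM _ _ f' φ' n₀ r hf' hn₀ hr hLQ A hA ε hε0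
  have hUmem : ∀ n, (∀ i, ‖f' n i - f' n₀ i‖ < ε) → (∀ j, ‖φ' n j - φ' n₀ j‖ < ε) →
      (f n, φ n) ∈ U := by
    intro n h1 h2
    apply hUU
    constructor
    · apply hSU₁
      intro i hi
      have hiS : i ∈ S := Finset.mem_union_right _ hi
      have h3 := h1 (e.symm ⟨i, hiS⟩)
      have h4 : (e (e.symm ⟨i, hiS⟩) : S) = ⟨i, hiS⟩ := e.apply_symm_apply _
      change ‖f n (e (e.symm ⟨i, hiS⟩)) - f n₀ (e (e.symm ⟨i, hiS⟩))‖ < ε at h3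
      rw [h4] at h3
      exact lt_of_lt_of_le h3 (min_le_left _ _)
    · apply hSU₂
      intro i hi
      have h3 := h2 (e'.symm ⟨i, hi⟩)
      have h4 : (e' (e'.symm ⟨i, hi⟩) : S₂) = ⟨i, hi⟩ := e'.apply_symm_apply _
      change ‖φ n (e' (e'.symm ⟨i, hi⟩)) - φ n₀ (e' (e'.symm ⟨i, hi⟩))‖ < ε at h3
      rw [h4] at h3
      exact lt_of_lt_of_le h3 (min_le_right _ _)
  exact ⟨x, y, z, hx, hy, hz, hxyz, hxA, hyA, hzA,
    hUmem x (fun i => (hF i).1) (fun j => (hP j).1),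
    hUmem y (fun i => (hF i).2.1) (fun j => (hP j).2.1),
    hUmem z (fun i => (hF i).2.2) (fun j => (hP j).2.2)⟩

end Pool.Agent.Work.MP_0f91f8_co.Nil
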