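import Pool.Agent.Work.MP_0f91f8_co.Nil.Stmts

/-!
Block [0f91f8 NQ], item DENSE: independent characters have dense lifts.
-/

open Filter Topology

namespace Pool.Agent.Work.MP_0f91f8_co.Nil

open Quad

theorem DENSE_pf : DENSE := by
  intro G _ d f hf
  rw [Metric.denseRange_iff]
  intro y ε hε
  obtain ⟨n, hn⟩ := exists_near.{0, 0} (Fin d) ε hε
  obtain ⟨g, hg⟩ := hn G f (fun j => ((y j : ℝ) : T)) (by
    intro ψ _ hψ
    have h0 := hf ψ hψ
    subst h0
    simp)
  choose t ht1 ht2 _ using fun j => exists_lift (f j g - ((y j : ℝ) : T))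
  have hmem : ((g, fun j => y j + t j) : G × (Fin d → ℝ)) ∈ lft f := by
    intro j
    have : ((y j + t j : ℝ) : T) = ((y j : ℝ) : T) + ((t j : ℝ) : T) := AddCircle.coe_add _ _ _
    change ((y j + t j : ℝ) : T) = f j g
    rw [this, ht1 j]
    abel
  refine ⟨⟨(g, fun j => y j + t j), hmem⟩, ?_⟩
  have hx : xm f ⟨(g, fun j => y j + t j), hmem⟩ = fun j => y j + t j := rfl
  rw [hx]
  rw [dist_pi_lt_iff hε]
  intro j
  rw [Real.dist_eq]
  have h1 : |y j - (y j + t j)| = |t j| := by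
    rw [show y j - (y j + t j) = -t j by ring, abs_neg]
  rw [h1, ht2 j, ← norm_neg, neg_sub]
  exact hg j

end Pool.Agent.Work.MP_0f91f8_co.Nil
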