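import Pool.Agent.Work.MP_0f91f8_co.Quad.Lim

/-!
Block [0f91f8 NQ]: Pythagorean triples and locally quadratic maps on multiplicative Bohr sets.
Definitions and all statements of the items. Captain helper62.
-/

open Filter Topology

namespace Pool.Agent.Work.MP_0f91f8_co.Nil

open Quad

abbrev T : Type := UnitAddCircle

/-- the real linear form `⟨w, y⟩` -/
def lin {d : ℕ} (w y : Fin d → ℝ) : ℝ := ∑ j, w j * y j

/-- the third difference at `0` vanishes whenever all its points lie in `D` -/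
def LQ0 {G : Type} [AddCommGroup G] (D : G → Prop) (φ : G → T) : Prop :=
  ∀ a b c : G, D a → D b → D c → D (a + b) → D (a + c) → D (b + c) → D (a + b + c) →
    φ (a + b + c) + φ a + φ b + φ c = φ (a + b) + φ (a + c) + φ (b + c) + φ 0

/-- twisted recurrence of a set of pairs -/
def TwRec {G : Type} [AddCommGroup G] (Tr : G → G → Prop) : Prop :=
  ∀ 𝓕 : Set (G →+ T), 𝓕.Finite → ∀ (κ : G) (δ : ℝ), 0 < δ →
    ∃ a b, Tr a b ∧ ∀ F ∈ 𝓕, ‖F a‖ < δ ∧ ‖F b - F κ‖ < δ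

/-- twisted recurrence of a set of pairs, together with a map `x` to a real vector space -/
def TwRecX {H : Type} [AddCommGroup H] {d : ℕ} (x : H →+ (Fin d → ℝ)) (Tr : H → H → Prop) :
    Prop :=
  ∀ 𝓕 : Set (H →+ T), 𝓕.Finite → ∀ (κ : H) (δ : ℝ), 0 < δ →
    ∃ a b, Tr a b ∧ ‖x a‖ < δ ∧ ‖x b - x κ‖ < δ ∧ ∀ F ∈ 𝓕, ‖F a‖ < δ ∧ ‖F b - F κ‖ < δ

/-- the group of pairs `(g, y)` where `y` is a real lift of `f g` -/
def lft {G : Type} [AddCommGroup G] {d : ℕ} (f : Fin d → G →+ T) :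
    AddSubgroup (G × (Fin d → ℝ)) where
  carrier := {p | ∀ j, ((p.2 j : ℝ) : T) = f j p.1}
  zero_mem' := by intro j; simp
  add_mem' := by
    intro p q hp hq j
    have h1 := hp j
    have h2 := hq j
    simp only [Prod.snd_add, Prod.fst_add, Pi.add_apply, map_add, AddCircle.coe_add]
    rw [h1, h2]
  neg_mem' := by
    intro p hp j
    have h1 := hp j
    simp only [Prod.snd_neg, Prod.fst_neg, Pi.neg_apply, map_neg, AddCircle.coe_neg]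
    rw [h1]

/-- the projection to the real vector space -/
def xm {G : Type} [AddCommGroup G] {d : ℕ} (f : Fin d → G →+ T) : lft f →+ (Fin d → ℝ) :=
  (AddMonoidHom.snd G (Fin d → ℝ)).comp (lft f).subtype

/-- no integer relation between the characters `f j` -/
def Indep {G : Type} [AddCommGroup G] {d : ℕ} (f : Fin d → G →+ T) : Prop :=
  ∀ k : Fin d → ℤ, (∀ g, ∑ j, k j • f j g = 0) → k = 0

/-- completely additive -/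
def AddF {p : ℕ} (f : ℕ → Fin p → T) : Prop :=
  ∀ m n : ℕ, 0 < m → 0 < n → f (m * n) = f m + f n

/-- the multiplicative Bohr set `|f n - f n₀| < r` -/
def Dom {p : ℕ} (f : ℕ → Fin p → T) (n₀ : ℕ) (r : ℝ) (n : ℕ) : Prop :=
  0 < n ∧ ∀ i, ‖f n i - f n₀ i‖ < r

/-- locally quadratic on the multiplicative Bohr set -/
def LQN {p : ℕ} (f : ℕ → Fin p → T) (n₀ : ℕ) (r : ℝ) (φ : ℕ → T) : Prop :=
  ∀ n a b c : ℕ, Dom f n₀ r n → Dom f n₀ r (n * a) → Dom f n₀ r (n * b) → Dom f n₀ r (n * c) →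
    Dom f n₀ r (n * a * b) → Dom f n₀ r (n * a * c) → Dom f n₀ r (n * b * c) →
    Dom f n₀ r (n * a * b * c) →
    φ (n * a * b * c) + φ (n * a) + φ (n * b) + φ (n * c) =
      φ (n * a * b) + φ (n * a * c) + φ (n * b * c) + φ n

/-- contains a dilate of every finite set of positive integers -/
def Thick (A : Set ℕ) : Prop :=
  ∀ X : Finset ℕ, (∀ x ∈ X, 0 < x) → ∃ k : ℕ, 0 < k ∧ ∀ x ∈ X, x * k ∈ A

/-! ### Items -/

/-- local homomorphisms extend -/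
def XH : Prop := ∀ (H : Type) [AddCommGroup H] (d : ℕ) (x : H →+ (Fin d → ℝ)), DenseRange x →
  ∀ (A : Type) [AddCommGroup A] (r : ℝ), 0 < r → ∀ φ : H → A,
    (∀ g h, ‖x g‖ < r → ‖x h‖ < r → ‖x (g + h)‖ < r → φ (g + h) = φ g + φ h) →
    ∃ Φ : H →+ A, ∀ h, ‖x h‖ < r / 4 → Φ h = φ h

/-- small elements generate -/
def XG : Prop := ∀ (H : Type) [AddCommGroup H] (d : ℕ) (x : H →+ (Fin d → ℝ)), DenseRange x →
  ∀ (A : Type) [AddCommGroup A] (r : ℝ), 0 < r → ∀ Φ Ψ : H →+ A,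
    (∀ h, ‖x h‖ < r → Φ h = Ψ h) → Φ = Ψ

/-- a symmetric biadditive form with values in the circle is the form of a quadratic map -/
def SPLIT : Prop := ∀ (H : Type) [AddCommGroup H] (B : H →+ H →+ T), (∀ g h, B g h = B h g) →
  ∃ Q : H → T, ∀ g h, Q (g + h) = Q g + Q h + B g h

/-- local quadratic maps extend -/
def X2 : Prop := ∀ (H : Type) [AddCommGroup H] (d : ℕ) (x : H →+ (Fin d → ℝ)), DenseRange x →
  ∀ (r : ℝ), 0 < r → ∀ φ : H → T, LQ0 (fun h => ‖x h‖ < r) φ →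
    ∃ Φ : H → T, Quadr Φ ∧ ∀ h, ‖x h‖ < r / 64 → Φ h = φ h

/-- finite duality near zero -/
def DUAL : Prop := ∀ (σ : Type) [Fintype σ] (d : ℕ) (ε : ℝ), 0 < ε → ∃ n : ℕ,
  ∀ (H : Type) [AddCommGroup H] (x : H →+ (Fin d → ℝ)) (e : Fin d → H),
    (∀ j, x (e j) = Pi.single j 1) →
    ∀ (θ : σ → H →+ T) (v : σ → T),
      (∀ (ψ : σ → ℤ) (w : Fin d → ℝ), (∀ s, |ψ s| ≤ n) → (∀ j, |w j| ≤ n) →
        (∀ g, ∑ s, ψ s • θ s g = ((lin w (x g) : ℝ) : T)) → ‖∑ s, ψ s • v s‖ ≤ 1 / 6) →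
      ∃ g, ‖x g‖ < ε ∧ ∀ s, ‖v s - θ s g‖ < ε

/-- linearization of a quadratic map on the elements whose form is a bounded linear form -/
def CHI : Prop := ∀ (H : Type) [AddCommGroup H] (d : ℕ) (x : H →+ (Fin d → ℝ)), DenseRange x →
  ∀ (φ : H → T) (hφ : Quadr φ) (C : ℝ), 0 < C → ∃ (χ : H →+ T) (δ : ℝ), 0 < δ ∧
    ∀ (h : H) (w : Fin d → ℝ), ‖x h‖ ≤ δ → (∀ j, |w j| ≤ C) →
      (∀ g, form φ hφ h g = ((lin w (x g) : ℝ) : T)) →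
      φ h - φ 0 = ((lin w (x h) / 2 : ℝ) : T) + χ h

/-- finitely many tests show that a homomorphism is not a bounded linear form -/
def TEST : Prop := ∀ (H : Type) [AddCommGroup H] (d : ℕ) (x : H →+ (Fin d → ℝ)) (θ : H →+ T)
  (C : ℝ), (∀ w : Fin d → ℝ, (∀ j, |w j| ≤ C) → ∃ g, θ g ≠ ((lin w (x g) : ℝ) : T)) →
  ∃ (K : Finset H) (η : ℝ), 0 < η ∧ ∀ w : Fin d → ℝ, (∀ j, |w j| ≤ C) →
    ∃ k ∈ K, η ≤ ‖θ k - ((lin w (x k) : ℝ) : T)‖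

/-- the recurrence theorem for quadratic maps near zero -/
def CORE : Prop := ∀ (H : Type) [AddCommGroup H] (d : ℕ) (x : H →+ (Fin d → ℝ)) (e : Fin d → H),
  (∀ j, x (e j) = Pi.single j 1) → DenseRange x → ∀ (Tr : H → H → Prop), TwRecX x Tr →
  ∀ (q : ℕ) (φ : Fin q → H → T), (∀ i, Quadr (φ i)) → ∀ ε : ℝ, 0 < ε →
    ∃ a b g, Tr a b ∧ ‖x a‖ < ε ∧ ‖x b‖ < ε ∧ ‖x g‖ < ε ∧
      ∀ i, ‖φ i (g + a) - φ i g‖ < ε ∧ ‖φ i (g + b) - φ i g‖ < ε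

/-- independent characters: the lifts are dense -/
def DENSE : Prop := ∀ (G : Type) [AddCommGroup G] (d : ℕ) (f : Fin d → G →+ T), Indep f →
  DenseRange (xm f)

/-- twisted recurrence passes to the group of lifts -/
def TLIFT : Prop := ∀ (G : Type) [AddCommGroup G] (d : ℕ) (f : Fin d → G →+ T)
  (Tr : G → G → Prop), TwRec Tr →
  TwRecX (xm f) (fun a b : lft f => Tr (a : G × (Fin d → ℝ)).1 (b : G × (Fin d → ℝ)).1)

/-- recurrence of locally quadratic maps on a Bohr set of independent characters -/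
def LOCI : Prop := ∀ (G : Type) [AddCommGroup G] (d : ℕ) (f : Fin d → G →+ T), Indep f →
  ∀ (Tr : G → G → Prop), TwRec Tr → ∀ (q : ℕ) (φ : Fin q → G → T) (r : ℝ), 0 < r →
    (∀ i, LQ0 (fun g => ∀ j, ‖f j g‖ < r) (φ i)) → ∀ ε : ℝ, 0 < ε →
    ∃ a b g, Tr a b ∧ (∀ j, ‖f j a‖ < ε ∧ ‖f j b‖ < ε ∧ ‖f j g‖ < ε) ∧
      ∀ i, ‖φ i (g + a) - φ i g‖ < ε ∧ ‖φ i (g + b) - φ i g‖ < ε

/-- finitely many characters: independent ones and torsion ones -/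
def REDUCE : Prop := ∀ (G : Type) [AddCommGroup G] (p : ℕ) (f : Fin p → G →+ T),
  ∃ (d : ℕ) (θ : Fin d → G →+ T) (τ : Fin p → G →+ T) (N : ℕ) (M : ℝ), 0 < N ∧ 0 < M ∧
    (∀ j, N • τ j = 0) ∧
    (∀ k : Fin d → ℤ, (∀ g, N • ∑ i, k i • θ i g = 0) → k = 0) ∧
    ∀ δ : ℝ, 0 < δ → ∀ g, (∀ j, τ j g = 0) → (∀ i, ‖θ i g‖ < δ) → ∀ j, ‖f j g‖ < M * δ

/-- recurrence of locally quadratic maps on a Bohr set -/
def LOC : Prop := ∀ (G : Type) [AddCommGroup G] (p : ℕ) (f : Fin p → G →+ T)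
  (Tr : G → G → Prop), TwRec Tr → ∀ (q : ℕ) (φ : Fin q → G → T) (r : ℝ), 0 < r →
    (∀ i, LQ0 (fun g => ∀ j, ‖f j g‖ < r) (φ i)) → ∀ ε : ℝ, 0 < ε →
    ∃ a b g, Tr a b ∧ (∀ j, ‖f j a‖ < ε ∧ ‖f j b‖ < ε ∧ ‖f j g‖ < ε) ∧
      ∀ i, ‖φ i (g + a) - φ i g‖ < ε ∧ ‖φ i (g + b) - φ i g‖ < ε

/-- return times are syndetic -/
def SYND : Prop := ∀ (p q : ℕ) (f : ℕ → Fin p → T) (φ : ℕ → Fin q → T) (n₀ : ℕ) (r : ℝ),
  AddF f → 0 < n₀ → 0 < r → (∀ j, LQN f n₀ r (fun n => φ n j)) → ∀ ε : ℝ, 0 < ε →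
    ∃ M : Finset ℕ, (∀ m ∈ M, 0 < m) ∧ ∀ n, 0 < n → ∃ m ∈ M,
      (∀ i, ‖f (m * n) i - f n₀ i‖ < ε) ∧ ∀ j, ‖φ (m * n) j - φ n₀ j‖ < ε

/-- extension to the positive rationals -/
def RATF : Prop := ∀ f : ℕ → T, (∀ m n : ℕ, 0 < m → 0 < n → f (m * n) = f m + f n) →
  ∃ F : PQ →+ T, ∀ (n : ℕ) (h : 0 < (n : ℚ)), F (pq n h) = f n

/-- limits along ultrafilters of dilations are locally quadratic on the rationals -/
def LIMQ : Prop := ∀ (p : ℕ) (f : ℕ → Fin p → T) (F : Fin p → PQ →+ T) (n₀ : ℕ) (r : ℝ)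
  (φ : ℕ → T) (𝒰 : Ultrafilter ℕ) (s : Fin p → T) (m : ℕ) (L : ℚ → T),
  AddF f → (∀ i, ∀ (n : ℕ) (h : 0 < (n : ℚ)), F i (pq n h) = f n i) → 0 < n₀ → 0 < r →
  LQN f n₀ r φ →
  (∀ S : Finset ℚ, (∀ q ∈ S, 0 < q) →
    ∀ᶠ k : ℕ in (𝒰 : Filter ℕ), 0 < k ∧ ∀ q ∈ S, ∃ n : ℕ, 0 < n ∧ (n : ℚ) = k * q) →
  (∀ i, Tendsto (fun k : ℕ => f k i) (𝒰 : Filter ℕ) (𝓝 (s i))) →
  0 < m → (∀ i, ‖f m i + s i - f n₀ i‖ < r / 4) →
  (∀ q : ℚ, Tendsto (fun k : ℕ => φ (m * ⌊(k : ℚ) * q⌋₊)) (𝒰 : Filter ℕ) (𝓝 (L q))) →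
  LQ0 (fun y : PQ => ∀ i, ‖F i y‖ < r / 16) (fun y : PQ => L (vl y))

/-- the finite-dimensional form of the theorem -/
def MAINF : Prop := ∀ (p q : ℕ) (f : ℕ → Fin p → T) (φ : ℕ → Fin q → T) (n₀ : ℕ) (r : ℝ),
  AddF f → 0 < n₀ → 0 < r → (∀ j, LQN f n₀ r (fun n => φ n j)) →
  ∀ (A : Set ℕ), Thick A → ∀ ε : ℝ, 0 < ε →
    ∃ x y z : ℕ, 0 < x ∧ 0 < y ∧ 0 < z ∧ x ^ 2 + y ^ 2 = z ^ 2 ∧ x ∈ A ∧ y ∈ A ∧ z ∈ A ∧
      (∀ i, ‖f x i - f n₀ i‖ < ε ∧ ‖f y i - f n₀ i‖ < ε ∧ ‖f z i - f n₀ i‖ < ε) ∧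
      ∀ j, ‖φ x j - φ n₀ j‖ < ε ∧ ‖φ y j - φ n₀ j‖ < ε ∧ ‖φ z j - φ n₀ j‖ < ε

end Pool.Agent.Work.MP_0f91f8_co.Nil
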